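import Mathlib

/-!
# The weight spectral sequence of a semistable degeneration

`Y` is the special fibre of a projective strictly semistable scheme of relative dimension `n` over a
henselian discrete valuation ring with residue field of `q` elements, `Y^(m)` the disjoint union of
the `m`-fold intersections of its irreducible components. `V a w` stands for
`H^(w-a)(Y^(a+1))`, so that the column `p` of the `E_1`-term of the weight spectral sequence of
Rapoport and Zink in total degree `w` is the sum of the `V a w` with `a ≥ |p|` and `a - p` even.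
-/

set_option autoImplicit false

namespace Pool.Agent.W522.M

/-- Finite-dimensional vector spaces `V a w` over `E`; `V a w` is `H^(w-a)(Y^(a+1))`. -/
structure Sp (E : Type) [Field E] where
  /-- the spaces -/
  V : ℕ → ℕ → Type
  [grp : ∀ a w, AddCommGroup (V a w)]
  [mod : ∀ a w, Module E (V a w)]
  [fin : ∀ a w, FiniteDimensional E (V a w)]

attribute [instance] Sp.grp Sp.mod Sp.fin

variable {E : Type} [Field E]

/-- linear maps from `V a w` to `V b v` -/
abbrev Sp.Hom (M : Sp E) (a w b v : ℕ) := M.V a w →ₗ[E] M.V b v

/-- pairings between `V a w` and `V a v` -/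
abbrev Sp.Pairing (M : Sp E) (a w v : ℕ) := M.V a w →ₗ[E] M.V a v →ₗ[E] E

variable (E) in
/-- The cohomology of the strata with the alternating sums of restriction maps, their adjoints, the
alternating sums of Gysin maps, the cup product with the class of a hyperplane section, the
intersection forms and the Frobenius endomorphism. -/
structure Strata extends Sp E where
  /-- restriction `H^(w-a)(Y^(a+1)) → H^(w-a)(Y^(a+2))` -/
  res : ∀ a w, toSp.Hom a w (a + 1) (w + 1)
  /-- Gysin map `H^(w-a-1)(Y^(a+2)) → H^(w-a+1)(Y^(a+1))` -/
  gys : ∀ a w, toSp.Hom (a + 1) w a (w + 1)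
  /-- cup product with the hyperplane class -/
  lef : ∀ a w, toSp.Hom a w a (w + 2)
  /-- the intersection forms -/
  pair : ∀ a w v, toSp.Pairing a w v
  /-- Frobenius -/
  frob : ∀ a w, toSp.Hom a w a w

variable (D : Strata E)

/-- the power `L^r` of the Lefschetz operator -/
def Strata.lp (a w : ℕ) : ∀ r : ℕ, D.Hom a w a (w + 2 * r)
  | 0 => LinearMap.id
  | r + 1 => (D.lef a (w + 2 * r)).comp (Strata.lp a w r)

variable {D} in
/-- restriction -/
def rho {a w : ℕ} (x : D.V a w) : D.V (a + 1) (w + 1) := D.res a w x

variable {D} in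
/-- Gysin map -/
def gam {a w : ℕ} (x : D.V (a + 1) w) : D.V a (w + 1) := D.gys a w x

variable {D} in
/-- cup product with the hyperplane class -/
def lam {a w : ℕ} (x : D.V a w) : D.V a (w + 2) := D.lef a w x

variable {D} in
/-- Frobenius -/
def phi {a w : ℕ} (x : D.V a w) : D.V a w := D.frob a w x

variable {D} in
/-- the intersection number -/
def ip {a w v : ℕ} (x : D.V a w) (y : D.V a v) : E := D.pair a w v x y

variable {D} in
/-- `L^r` -/
def pow (r : ℕ) {a w : ℕ} (x : D.V a w) : D.V a (w + 2 * r) := D.lp a w r x

/-- multiplication by an integer, in `V a w` -/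
def Strata.mul (c : ℕ) {a w : ℕ} (x : D.V a w) : D.V a w := (c : E) • x

variable {D} in
/-- `x = 0` -/
def Vanishes {a w : ℕ} (x : D.V a w) : Prop := x = 0

/-- The restriction and Gysin maps form a complex. -/
structure Strata.IsComplex : Prop where
  res_res : ∀ a w (x : D.V a w), Vanishes (rho (rho x))
  gys_gys : ∀ a w (x : D.V (a + 1 + 1) w), Vanishes (gam (gam x))
  gys_res : ∀ a w (x : D.V (a + 1) w), Vanishes (gam (rho x) + rho (gam x))

/-- `V a w` is zero for `w < a` (no cohomology in negative degrees) and for `a > n` (`n + 2`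
components do not meet). -/
structure Strata.IsBounded (n : ℕ) : Prop where
  neg : ∀ a w (x : D.V a w), w < a → Vanishes x
  empty : ∀ a w (x : D.V a w), n < a → Vanishes x

/-- The hyperplane class is a class on the whole special fibre, and satisfies hard Lefschetz on
every stratum. -/
structure Strata.IsLefschetz (n : ℕ) : Prop where
  lef_res : ∀ a w (x : D.V a w), lam (rho x) = rho (lam x)
  lef_gys : ∀ a w (x : D.V (a + 1) w), lam (gam x) = gam (lam x)
  bij : ∀ a w r, w + r = n → Function.Bijective (pow r : D.V a w → D.V a (w + 2 * r))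

/-- Poincaré duality: the Gysin maps are the adjoints of the restriction maps. -/
structure Strata.IsDuality (n : ℕ) : Prop where
  adj : ∀ a w v (x : D.V a w) (y : D.V (a + 1) v), ip (rho x) y = ip x (gam y)
  lef_adj : ∀ a w v (x : D.V a w) (y : D.V a v), ip (lam x) y = ip x (lam y)
  symm : ∀ a w v (x : D.V a w) (y : D.V a v), ip x y = (-1) ^ (w + a) * ip y x
  nondeg : ∀ a w v, w + v = 2 * n → ∀ x : D.V a w, (∀ y : D.V a v, ip x y = 0) → x = 0

/-- Frobenius: compatible with the maps up to Tate twists. -/
structure Strata.IsFrobenius (q : ℕ) : Prop where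
  res : ∀ a w (x : D.V a w), phi (rho x) = rho (phi x)
  gys : ∀ a w (x : D.V (a + 1) w), phi (gam x) = D.mul q (gam (phi x))
  lef : ∀ a w (x : D.V a w), phi (lam x) = D.mul q (lam (phi x))

/-- The components of all strata are defined over the residue field with `q` elements: Frobenius
acts as the identity on `H^0` and as `q^dim` on the top cohomology. -/
structure Strata.IsSplit (n q : ℕ) : Prop where
  bottom : ∀ a (x : D.V a a), phi x = x
  top : ∀ a w (x : D.V a w), w + a = 2 * n → phi x = D.mul (q ^ (n - a)) x

/-! ### The spectral sequence -/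

/-- The index `a` occurs in the column `p`. -/
def InCol (p : ℤ) (a : ℕ) : Prop := p.natAbs ≤ a ∧ Even ((a : ℤ) - p)

/-- families of elements of the `V a w`, `w` fixed -/
abbrev Strata.Ch (w : ℕ) := ∀ a, D.V a w

/-- the column `p` of `E_1` in total degree `w` -/
def Strata.E1 (p : ℤ) (w : ℕ) : Submodule E (D.Ch w) where
  carrier := {x | ∀ a, ¬ InCol p a → x a = 0}
  zero_mem' := fun _ _ => rfl
  add_mem' := fun {x y} hx hy a ha => by
    rw [Pi.add_apply, hx a ha, hy a ha, add_zero]
  smul_mem' := fun c x hx a ha => by
    rw [Pi.smul_apply, hx a ha, smul_zero]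

variable {D} in
/-- the component in `V a (w + 1)` of the sum of restriction and Gysin map -/
def tot {w : ℕ} (x : D.Ch w) : ∀ a, D.V a (w + 1)
  | 0 => gam (x 1)
  | a + 1 => rho (x a) + gam (x (a + 2))

open Classical in
variable {D} in
/-- the differential from the column `p` to the column `p + 1` -/
noncomputable def diff (p : ℤ) {w : ℕ} (x : D.Ch w) : D.Ch (w + 1) :=
  fun a => if InCol (p + 1) a then tot x a else 0

/-- the differential is linear -/
noncomputable def Strata.d (p : ℤ) (w : ℕ) : D.Ch w →ₗ[E] D.Ch (w + 1) where
  toFun := diff p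
  map_add' x y := by
    funext a
    unfold diff
    by_cases h : InCol (p + 1) a
    · rw [Pi.add_apply, if_pos h, if_pos h, if_pos h]
      cases a with
      | zero => exact map_add (D.gys 0 w) _ _
      | succ a =>
        change D.res a w (x a + y a) + D.gys (a + 1) w (x (a + 2) + y (a + 2)) =
          (D.res a w (x a) + D.gys (a + 1) w (x (a + 2))) +
            (D.res a w (y a) + D.gys (a + 1) w (y (a + 2)))
        rw [map_add, map_add]
        abel
    · rw [Pi.add_apply, if_neg h, if_neg h, if_neg h, add_zero]
  map_smul' c x := by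
    funext a
    unfold diff
    by_cases h : InCol (p + 1) a
    · rw [Pi.smul_apply, if_pos h, if_pos h]
      cases a with
      | zero => exact map_smul (D.gys 0 w) _ _
      | succ a =>
        change D.res a w (c • x a) + D.gys (a + 1) w (c • x (a + 2)) =
          c • (D.res a w (x a) + D.gys (a + 1) w (x (a + 2)))
        rw [map_smul, map_smul, smul_add]
    · rw [Pi.smul_apply, if_neg h, if_neg h, smul_zero]

/-- the cocycles in the column `p` -/
noncomputable def Strata.Z (p : ℤ) (w : ℕ) : Submodule E (D.Ch w) :=
  D.E1 p w ⊓ LinearMap.ker (D.d p w)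

/-- the coboundaries in the column `p`; `E_2 = Z / B` -/
noncomputable def Strata.B (p : ℤ) : ∀ w, Submodule E (D.Ch w)
  | 0 => ⊥
  | w + 1 => (D.E1 (p - 1) w).map (D.d (p - 1) w)

/-- The map `f` induces a bijection from `Z / B` to `Z' / B'`. -/
def InducesBijection {V W : Type} [AddCommGroup V] [AddCommGroup W]
    (f : V → W) (Z B : Set V) (Z' B' : Set W) : Prop :=
  (∀ x ∈ Z, f x ∈ Z') ∧ (∀ x ∈ B, f x ∈ B') ∧ (∀ x ∈ Z, f x ∈ B' → x ∈ B) ∧
    ∀ y ∈ Z', ∃ x ∈ Z, y - f x ∈ B'

variable {D} in
/-- `L^r` on families -/
def powCh (r : ℕ) {w : ℕ} (x : D.Ch w) : D.Ch (w + 2 * r) := fun a => pow r (x a)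

/-- The map `f` induces a bijection from the column `p` of `E_2` in total degree `w` to the column
`p'` in total degree `w'`. -/
def Strata.BijectiveOnE2 (p : ℤ) (w : ℕ) (p' : ℤ) (w' : ℕ) (f : D.Ch w → D.Ch w') : Prop :=
  InducesBijection f (D.Z p w) (D.B p w : Set (D.Ch w)) (D.Z p' w') (D.B p' w' : Set (D.Ch w'))

/-- The hard Lefschetz theorem for the generic fibre, on the `E_2`-terms: `L^r` induces bijections
of the graded pieces of the weight filtrations of `H^(n-r)` and `H^(n+r)`. -/
def Strata.GenericLefschetz (n : ℕ) : Prop := ∀ (p : ℤ) (w r : ℕ), w + r = n →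
  D.BijectiveOnE2 p w p (w + 2 * r) (powCh r)

/-- `N^r` induces a bijection from the column `-r` to the column `r` of the `E_2`-term in total
degree `w` (the monodromy operator from the column `p` to the column `p + 2` of `E_1` is the
identity on the common summands `V a w`, so that `N^r : E_1^(-r) → E_1^r` is the identity of the sum
of the `V a w`, `a ≥ r`, `a - r` even). The monodromy-weight conjecture for `H^w` of the generic
fibre says that this holds for all `r ≥ 1`. -/
def Strata.MonodromyWeight (w r : ℕ) : Prop := D.BijectiveOnE2 (-r) w r w id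

/-! ### Rational classes -/

variable {D} in
/-- multiplication by a rational number -/
def rmul (r : ℚ) {a w : ℕ} (x : D.V a w) : D.V a w := (r : E) • x

/-- The `ℚ`-spaces `C a w ⊆ V a w` of classes of algebraic cycles with rational coefficients. -/
structure Strata.Cycles where
  /-- the classes in `V a w` -/
  C : ∀ a w, AddSubgroup (D.V a w)
  smul : ∀ a w (r : ℚ), ∀ x ∈ C a w, rmul r x ∈ C a w

variable {D}

/-- `x` is the class of an algebraic cycle with rational coefficients. -/
def Strata.Cycles.Alg (A : D.Cycles) {a w : ℕ} (x : D.V a w) : Prop := x ∈ A.C a w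

/-- Algebraic classes are stable under restriction, Gysin maps and cup products with the hyperplane
class. -/
structure Strata.Cycles.Stable (A : D.Cycles) : Prop where
  res : ∀ a w (x : D.V a w), A.Alg x → A.Alg (rho x)
  gys : ∀ a w (x : D.V (a + 1) w), A.Alg x → A.Alg (gam x)
  lef : ∀ a w (x : D.V a w), A.Alg x → A.Alg (lam x)

/-- the `E`-span of the classes of cycles -/
def Strata.Cycles.span (A : D.Cycles) (a w : ℕ) : Submodule E (D.V a w) :=
  Submodule.span E (A.C a w)

/-- the `ℚ`-linear combinations of a finite set -/
def IsComb {a w : ℕ} (s : Finset (D.V a w)) (x : D.V a w) : Prop :=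
  ∃ c : D.V a w → ℚ, x = ∑ y ∈ s, rmul (c y) y

/-- Codimension `0`: `H^0` of a stratum is spanned by the classes of its finitely many irreducible
components, which have positive degree. -/
structure Strata.Cycles.Components (A : D.Cycles) (n : ℕ) : Prop where
  span : ∀ a, A.span a a = ⊤
  finite : ∀ a, ∃ s : Finset (D.V a a), ∀ x, A.Alg x → IsComb s x
  pos : ∀ a, a ≤ n → ∀ t : D.V a a, A.Alg t → t ≠ 0 →
    ∃ r : ℚ, 0 < r ∧ ip t (pow (n - a) t) = (r : E)

/-- Intersection numbers of cycles are rational. -/
def Strata.Cycles.Rational (A : D.Cycles) (n : ℕ) : Prop :=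
  ∀ a w v, w + v = 2 * n → ∀ (x : D.V a w) (y : D.V a v), A.Alg x → A.Alg y →
    ∃ r : ℚ, ip x y = (r : E)

/-- Codimension `1`: the Hodge index theorem for divisors. -/
def Strata.Cycles.HodgeIndex (A : D.Cycles) (n : ℕ) : Prop :=
  ∀ a, a + 2 ≤ n → ∀ x : D.V a (a + 2), A.Alg x → Vanishes (pow (n - a - 1) x) → x ≠ 0 →
    ∃ r : ℚ, r < 0 ∧ ip x (pow (n - a - 2) x) = (r : E)

/-- Tate's conjecture for divisors on the `(a+1)`-fold intersections of components: the generalised
eigenspace of Frobenius for the eigenvalue `q` in `H^2` is spanned by classes of divisors. -/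
def Strata.Cycles.TateDivisors (A : D.Cycles) (q a : ℕ) : Prop :=
  Module.End.maxGenEigenspace (D.frob a (a + 2)) (q : E) ≤ A.span a (a + 2)

/-- The cohomology of the strata of the special fibre of a projective strictly semistable scheme of
relative dimension `n` over a henselian discrete valuation ring with residue field of `q` elements,
over which all components of the strata are defined. -/
structure Strata.IsSemistable (D : Strata E) (n q : ℕ) : Prop where
  complex : D.IsComplex
  bounded : D.IsBounded n
  lefschetz : D.IsLefschetz n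
  duality : D.IsDuality n
  frobenius : D.IsFrobenius q
  split : D.IsSplit n q
  generic : D.GenericLefschetz n

/-- The known properties of algebraic cycles in codimension `0` and `1`. -/
structure Strata.Cycles.IsGeometric (A : D.Cycles) (n : ℕ) : Prop where
  stable : A.Stable
  components : A.Components n
  rational : A.Rational n
  hodge : A.HodgeIndex n

end Pool.Agent.W522.M
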