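import Mathlib
import Pool.Agent.W522.C.C4

/-! Linear algebra: simple common eigenvalues; orthogonal complements; rational coefficients. -/

set_option autoImplicit false

namespace Pool.Agent.W522.M

open Polynomial Module Pool.Agent.W522.C

section simple

variable {E A B : Type*} [Field E] [Infinite E] [AddCommGroup A] [Module E A]
  [FiniteDimensional E A] [AddCommGroup B] [Module E B] [FiniteDimensional E B]

/-- `A = ker ρ + im γ` implies `ker γ ∩ im ρ = 0` if the common eigenvalues are simple on `B`. -/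
theorem tlemma (FA : Module.End E A) (FB : Module.End E B) (ρ : A →ₗ[E] B) (γ : B →ₗ[E] A)
    (hρ : ∀ x, ρ (FA x) = FB (ρ x)) (hγ : ∀ y, γ (FB y) = FA (γ y))
    (h2 : ∀ a, ∃ y, ρ a = ρ (γ y))
    (hs : ∀ f : E[X], Irreducible f → f ∣ FA.charpoly → ¬ f ^ 2 ∣ FB.charpoly)
    (a : A) (ha : γ (ρ a) = 0) : ρ a = 0 := by
  classical
  have hR : LinearMap.range ρ ≤ (LinearMap.range ρ).comap FB := by
    rintro _ ⟨x, rfl⟩
    exact ⟨FA x, hρ x⟩
  let φ : B →ₗ[E] LinearMap.range ρ := (ρ.comp γ).codRestrict _ fun y => ⟨γ y, rfl⟩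
  have hφ : Function.Surjective φ := by
    rintro ⟨_, x, rfl⟩
    obtain ⟨y, hy⟩ := h2 x
    exact ⟨y, Subtype.ext hy.symm⟩
  have hφF : ∀ y, φ (FB y) = (FB.restrict hR) (φ y) := by
    intro y
    apply Subtype.ext
    change ρ (γ (FB y)) = FB (ρ (γ y))
    rw [hγ, hρ]
  have hK : LinearMap.ker φ ≤ (LinearMap.ker φ).comap FB := by
    intro y hy
    rw [LinearMap.mem_ker] at hy
    rw [Submodule.mem_comap, LinearMap.mem_ker, hφF, hy, map_zero]
  have e1 := charpoly_eq_mul FB (LinearMap.ker φ) hK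
  have e2 : ((LinearMap.ker φ).mapQ (LinearMap.ker φ) FB hK).charpoly =
      (FB.restrict hR).charpoly := by
    rw [← LinearEquiv.charpoly_conj (φ.quotKerEquivOfSurjective hφ)]
    congr 1
    apply LinearMap.ext
    intro z
    obtain ⟨y, rfl⟩ := hφ z
    rw [LinearEquiv.conj_apply_apply]
    have h3 : (φ.quotKerEquivOfSurjective hφ).symm (φ y) = Submodule.Quotient.mk y := by
      rw [LinearEquiv.symm_apply_eq]
      rfl
    rw [h3, ← hφF]
    rfl
  have e3 : (FB.restrict hR).charpoly ∣ FA.charpoly := by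
    have hk : LinearMap.ker ρ ≤ (LinearMap.ker ρ).comap FA := by
      intro y hy
      rw [LinearMap.mem_ker] at hy
      rw [Submodule.mem_comap, LinearMap.mem_ker, hρ, hy, map_zero]
    rw [charpoly_eq_mul FA (LinearMap.ker ρ) hk]
    have h3 : ((LinearMap.ker ρ).mapQ (LinearMap.ker ρ) FA hk).charpoly =
        (FB.restrict hR).charpoly := by
      rw [← LinearEquiv.charpoly_conj ρ.quotKerEquivRange]
      congr 1
      apply LinearMap.ext
      rintro ⟨_, x, rfl⟩
      rw [LinearEquiv.conj_apply_apply]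
      have h3 : ρ.quotKerEquivRange.symm ⟨ρ x, x, rfl⟩ = Submodule.Quotient.mk x := by
        rw [LinearEquiv.symm_apply_eq]
        rfl
      rw [h3]
      apply Subtype.ext
      exact hρ x
    rw [h3]
    exact dvd_mul_left _ _
  by_contra hne
  have hI : LinearMap.ker φ ⊓ LinearMap.range ρ ≤
      (LinearMap.ker φ ⊓ LinearMap.range ρ).comap FB := fun x hx => ⟨hK hx.1, hR hx.2⟩
  have hmem : ρ a ∈ LinearMap.ker φ ⊓ LinearMap.range ρ := by
    refine ⟨?_, a, rfl⟩
    apply LinearMap.mem_ker.2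
    apply Subtype.ext
    change ρ (γ (ρ a)) = 0
    rw [ha, map_zero]
  have hdeg : (FB.restrict hI).charpoly.natDegree ≠ 0 := by
    rw [LinearMap.charpoly_natDegree]
    intro h0
    rw [Submodule.finrank_eq_zero] at h0
    rw [h0] at hmem
    exact hne ((Submodule.mem_bot E).1 hmem)
  obtain ⟨f, hf, hfd⟩ := Polynomial.exists_irreducible_of_natDegree_ne_zero hdeg
  have d1 := hfd.trans (charpoly_dvd_of_le FB _ _ hI hK inf_le_left)
  have d2 := hfd.trans (charpoly_dvd_of_le FB _ _ hI hR inf_le_right)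
  refine hs f hf (d2.trans e3) ?_
  rw [e1, e2, pow_two]
  exact mul_dvd_mul d1 d2

theorem non_tate {A4 C5 Y : Type*} [AddCommGroup A4] [Module E A4] [AddCommGroup C5] [Module E C5]
    [AddCommGroup Y] [Module E Y]
    (FA : Module.End E A) (F4 : Module.End E A4) (FB : Module.End E B) (ρ : A →ₗ[E] B)
    (γ : B →ₗ[E] A4) (l : A →ₗ[E] A4) (hl : Function.Bijective l) (ρ4 : A4 →ₗ[E] C5)
    (g : Y →ₗ[E] B) (q : E) (hq : q ≠ 0) (hρ : ∀ x, FB (ρ x) = ρ (FA x))
    (hγ : ∀ y, F4 (γ y) = q • γ (FB y)) (hlF : ∀ x, F4 (l x) = q • l (FA x))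
    (h15 : ∀ x, ρ4 (F4 x) = q ^ 2 • ρ4 x) (hg : ∀ y, FB (g y) = q • g y)
    (HS : ∀ a, ρ4 (l a) = 0 → ∃ a0 b y, l a = l a0 + γ b ∧ ρ a0 + g y = 0)
    (hs : ∀ f : E[X], Irreducible f → ¬ f ∣ X - C q → f ∣ FA.charpoly → ¬ f ^ 2 ∣ FB.charpoly)
    (m : A) (hm : γ (ρ m) = 0) :
    ∃ m0 : A, (∃ k : ℕ, ((FA - q • (1 : Module.End E A)) ^ k) m0 = 0) ∧ ρ m = ρ m0 := by
  classical
  set GA : Module.End E A := FA - q • (1 : Module.End E A) with hGA
  set GB : Module.End E B := FB - q • (1 : Module.End E B) with hGB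
  let le := LinearEquiv.ofBijective l hl
  let γ' : B →ₗ[E] A := le.symm.toLinearMap.comp γ
  have hlγ : ∀ y, l (γ' y) = γ y := fun y => le.apply_symm_apply (γ y)
  have hγ' : ∀ y, FA (γ' y) = γ' (FB y) := by
    intro y
    apply hl.1
    have h1 := hlF (γ' y)
    rw [hlγ, hγ] at h1
    rw [hlγ]
    exact (smul_right_injective A4 hq h1).symm
  have hρG : ∀ x, GB (ρ x) = ρ (GA x) := by
    intro x
    simp only [hGA, hGB, LinearMap.sub_apply, LinearMap.smul_apply, Module.End.one_apply, map_sub,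
      map_smul, hρ]
  have hγG : ∀ y, GA (γ' y) = γ' (GB y) := by
    intro y
    simp only [hGA, hGB, LinearMap.sub_apply, LinearMap.smul_apply, Module.End.one_apply, map_sub,
      map_smul, hγ']
  have hρN : ∀ (N : ℕ) x, (GB ^ N) (ρ x) = ρ ((GA ^ N) x) := by
    intro N
    induction N with
    | zero => intro x; rfl
    | succ N ih => intro x; rw [pow_succ, pow_succ, Module.End.mul_apply, Module.End.mul_apply,
        hρG, ih]
  have hγN : ∀ (N : ℕ) y, (GA ^ N) (γ' y) = γ' ((GB ^ N) y) := by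
    intro N
    induction N with
    | zero => intro x; rfl
    | succ N ih => intro x; rw [pow_succ, pow_succ, Module.End.mul_apply, Module.End.mul_apply,
        hγG, ih]
  obtain ⟨N, ⟨hA, hB⟩, hN⟩ := ((GA.eventually_isCompl_ker_pow_range_pow.and
    GB.eventually_isCompl_ker_pow_range_pow).and (Filter.eventually_ge_atTop 1)).exists
  obtain ⟨N', rfl⟩ : ∃ N', N = N' + 1 := ⟨N - 1, by omega⟩
  set UA := LinearMap.range (GA ^ (N' + 1)) with hUA
  set UB := LinearMap.range (GB ^ (N' + 1)) with hUB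
  -- ρ4 l kills UA
  have hkill : ∀ a ∈ UA, ρ4 (l a) = 0 := by
    rintro _ ⟨c, rfl⟩
    rw [pow_succ', Module.End.mul_apply]
    set c' := (GA ^ N') c
    have h1 := congrArg ρ4 (hlF c')
    rw [h15, map_smul, pow_two, mul_smul] at h1
    have h2 : q • ρ4 (l c') = ρ4 (l (FA c')) := smul_right_injective C5 hq h1
    simp only [hGA, LinearMap.sub_apply, LinearMap.smul_apply, Module.End.one_apply, map_sub,
      map_smul]
    rw [← h2, sub_self]
  -- injectivity on UA
  have hinjA : ∀ a ∈ UA, GA a = 0 → a = 0 := by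
    intro a ha h0
    have h1 : a ∈ LinearMap.ker (GA ^ (N' + 1)) := by
      rw [LinearMap.mem_ker, pow_succ, Module.End.mul_apply, h0, map_zero]
    exact (Submodule.mem_bot E).1 (hA.disjoint.eq_bot ▸ (⟨h1, ha⟩ :
      a ∈ LinearMap.ker (GA ^ (N' + 1)) ⊓ UA))
  have hsurA : ∀ a ∈ UA, ∃ c ∈ UA, (GA ^ (N' + 1)) c = a := by
    rintro _ ⟨c, rfl⟩
    obtain ⟨c0, h0, c1, h1, rfl⟩ := Submodule.mem_sup.1
      (hA.codisjoint.eq_top ▸ Submodule.mem_top : c ∈ LinearMap.ker (GA ^ (N' + 1)) ⊔ UA)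
    refine ⟨c1, h1, ?_⟩
    rw [map_add, LinearMap.mem_ker.1 h0, zero_add]
  have sA : UA ≤ UA.comap FA := by
    rintro _ ⟨c, rfl⟩
    have hc : Commute FA (GA ^ (N' + 1)) := by
      apply Commute.pow_right
      rw [hGA]
      exact (Commute.refl FA).sub_right ((Commute.one_right FA).smul_right q)
    refine ⟨FA c, ?_⟩
    exact (congrArg (fun f : Module.End E A => f c) hc.eq).symm
  have sB : UB ≤ UB.comap FB := by
    rintro _ ⟨c, rfl⟩
    have hc : Commute FB (GB ^ (N' + 1)) := by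
      apply Commute.pow_right
      rw [hGB]
      exact (Commute.refl FB).sub_right ((Commute.one_right FB).smul_right q)
    refine ⟨FB c, ?_⟩
    exact (congrArg (fun f : Module.End E B => f c) hc.eq).symm
  have rAB : ∀ a ∈ UA, ρ a ∈ UB := by
    rintro _ ⟨c, rfl⟩
    exact ⟨ρ c, hρN _ c⟩
  have gBA : ∀ b ∈ UB, γ' b ∈ UA := by
    rintro _ ⟨c, rfl⟩
    exact ⟨γ' c, hγN _ c⟩
  obtain ⟨m0, h0, m1, h1, rfl⟩ := Submodule.mem_sup.1
    (hA.codisjoint.eq_top ▸ Submodule.mem_top : m ∈ LinearMap.ker (GA ^ (N' + 1)) ⊔ UA)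
  refine ⟨m0, ⟨N' + 1, LinearMap.mem_ker.1 h0⟩, ?_⟩
  have hm' : γ' (ρ m0) + γ' (ρ m1) = 0 := by
    rw [← map_add, ← map_add]
    change le.symm (γ (ρ (m0 + m1))) = 0
    rw [hm, map_zero]
  have hm1 : γ' (ρ m1) = 0 := by
    have e1 : γ' (ρ m1) ∈ UA := gBA _ (rAB _ h1)
    have e2 : γ' (ρ m1) ∈ LinearMap.ker (GA ^ (N' + 1)) := by
      rw [eq_neg_of_add_eq_zero_right hm', LinearMap.mem_ker, map_neg, hγN, hρN,
        LinearMap.mem_ker.1 h0, map_zero, map_zero, neg_zero]
    exact (Submodule.mem_bot E).1 (hA.disjoint.eq_bot ▸ (⟨e2, e1⟩ :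
      γ' (ρ m1) ∈ LinearMap.ker (GA ^ (N' + 1)) ⊓ UA))
  have key : ρ m1 = 0 := by
    have h3 := tlemma (FA.restrict sA) (FB.restrict sB) (ρ.restrict rAB) (γ'.restrict gBA)
      (fun x => Subtype.ext (hρ x).symm) (fun y => Subtype.ext (hγ' y).symm)
      (by
        rintro ⟨a, ha⟩
        obtain ⟨c, hc, rfl⟩ := hsurA a ha
        obtain ⟨a0, b, y, e1, e2⟩ := HS c (hkill c hc)
        refine ⟨⟨(GB ^ (N' + 1)) b, b, rfl⟩, Subtype.ext ?_⟩
        change ρ ((GA ^ (N' + 1)) c) = ρ (γ' ((GB ^ (N' + 1)) b))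
        have e3 : c = a0 + γ' b := by
          apply hl.1
          rw [map_add, hlγ, e1]
        have e4 : (GB ^ (N' + 1)) (ρ a0) = 0 := by
          rw [eq_neg_of_add_eq_zero_left e2, map_neg, pow_succ, Module.End.mul_apply]
          have e5 : GB (g y) = 0 := by
            simp only [hGB, LinearMap.sub_apply, LinearMap.smul_apply, Module.End.one_apply, hg,
              sub_self]
          rw [e5, map_zero, neg_zero]
        rw [e3, map_add, map_add, ← hρN, e4, zero_add, hγN])
      (by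
        intro f hf hfA hfB
        have d1 : (FA.restrict sA).charpoly ∣ FA.charpoly := by
          rw [charpoly_eq_mul FA UA sA]
          exact dvd_mul_right _ _
        have d2 : (FB.restrict sB).charpoly ∣ FB.charpoly := by
          rw [charpoly_eq_mul FB UB sB]
          exact dvd_mul_right _ _
        refine hs f hf ?_ (hfA.trans d1) (hfB.trans d2)
        intro hfq
        have h4 : X - C q ∣ (FA.restrict sA).charpoly := by
          have h5 : Associated f (X - C q) := hf.associated_of_dvd (irreducible_X_sub_C q) hfq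
          exact h5.symm.dvd.trans hfA
        rw [dvd_iff_isRoot, ← Module.End.hasEigenvalue_iff_isRoot_charpoly] at h4
        obtain ⟨v, hv1, hv2⟩ := h4.exists_hasEigenvector
        rw [Module.End.mem_eigenspace_iff] at hv1
        apply hv2
        apply Subtype.ext
        apply hinjA v v.2
        have h6 : FA v = q • (v : A) := congrArg Subtype.val hv1
        simp only [hGA, LinearMap.sub_apply, LinearMap.smul_apply, Module.End.one_apply, h6,
          sub_self])
      ⟨m1, h1⟩ (Subtype.ext hm1)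
    exact congrArg Subtype.val h3
  rw [map_add, key, add_zero]

end simple

section orth

/-- orthogonal projection to a subspace of finite dimension on which the form is definite -/
theorem exists_proj {V : Type*} [AddCommGroup V] [Module ℚ V] (b : LinearMap.BilinForm ℚ V)
    (U : Submodule ℚ V) [FiniteDimensional ℚ U] (hpos : ∀ u ∈ U, b u u = 0 → u = 0)
    (x : V) : ∃ u ∈ U, ∀ v ∈ U, b v (x - u) = 0 := by
  let T : U →ₗ[ℚ] Module.Dual ℚ U := LinearMap.domRestrict₁₂ (LinearMap.flip b) U U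
  have hT : Function.Injective T := by
    rw [← LinearMap.ker_eq_bot, LinearMap.ker_eq_bot']
    intro u hu
    apply Subtype.ext
    exact hpos u u.2 (congrArg (fun f : Module.Dual ℚ U => f u) hu)
  have hT' : Function.Surjective T := by
    rw [← LinearMap.injective_iff_surjective_of_finrank_eq_finrank]
    · exact hT
    · exact (Subspace.dual_finrank_eq).symm
  obtain ⟨u, hu⟩ := hT' ((LinearMap.flip b x).comp U.subtype)
  refine ⟨u, u.2, fun v hv => ?_⟩
  rw [map_sub, sub_eq_zero]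
  exact (congrArg (fun f : Module.Dual ℚ U => f ⟨v, hv⟩) hu).symm

end orth

end Pool.Agent.W522.M
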