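import Mathlib
import Pool.Agent.W522.M.M1

/-! The rational part: Hodge index theorem. -/

set_option autoImplicit false

namespace Pool.Agent.W522.M

open Module

section

variable {E : Type*} [Field E] [CharZero E]

/-- a `ℚ`-linear retraction of `ℚ → E` -/
theorem exists_retr (E : Type*) [Field E] [CharZero E] :
    ∃ t : E →ₗ[ℚ] ℚ, ∀ r : ℚ, t (r : E) = r := by
  obtain ⟨t, ht⟩ := LinearMap.exists_leftInverse_of_injective (Algebra.linearMap ℚ E)
    (LinearMap.ker_eq_bot.2 (algebraMap ℚ E).injective)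
  exact ⟨t, fun r => congrArg (fun f : ℚ →ₗ[ℚ] ℚ => f r) ht⟩

/-- the positive-definite form on rational classes -/
theorem proj_of_pos {V W : Type*} [AddCommGroup V] [Module E V] [Module ℚ V] [AddCommGroup W]
    [Module E W] (p : V →ₗ[E] W →ₗ[E] E) (L : V →ₗ[E] W) (C : Submodule ℚ V)
    [FiniteDimensional ℚ C] (hrat : ∀ x ∈ C, ∀ y ∈ C, ∃ r : ℚ, p x (L y) = r)
    (hpos : ∀ x ∈ C, p x (L x) = 0 → x = 0) (U : Submodule ℚ V) (hU : U ≤ C) (x : V) (hx : x ∈ C) :
    ∃ u ∈ U, ∀ v ∈ U, p v (L (x - u)) = 0 := by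
  obtain ⟨t, ht⟩ := exists_retr E
  letI : Module ℚ W := Module.compHom W (algebraMap ℚ E)
  let b : LinearMap.BilinForm ℚ V := LinearMap.mk₂ ℚ (fun x y => t (p x (L y)))
    (fun x x' y => by rw [map_add, LinearMap.add_apply, map_add])
    (fun c x y => by
      have h1 : c • x = (c : E) • x := (Rat.cast_smul_eq_qsmul E c x).symm
      rw [h1, map_smul, LinearMap.smul_apply, Rat.cast_smul_eq_qsmul, map_smul])
    (fun x y y' => by rw [map_add, map_add, map_add])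
    (fun c x y => by
      have h1 : c • y = (c : E) • y := (Rat.cast_smul_eq_qsmul E c y).symm
      rw [h1, map_smul, map_smul, Rat.cast_smul_eq_qsmul, map_smul])
  have hb : ∀ x ∈ C, ∀ y ∈ C, b x y = 0 → p x (L y) = 0 := by
    intro x hx y hy h
    obtain ⟨r, hr⟩ := hrat x hx y hy
    have h1 : t (p x (L y)) = 0 := h
    rw [hr, ht] at h1
    rw [hr, h1, Rat.cast_zero]
  have hfin : FiniteDimensional ℚ U := Submodule.finiteDimensional_of_le hU
  obtain ⟨u, hu, h⟩ := exists_proj b U (fun u hu h0 => hpos u (hU hu) (hb u (hU hu) u (hU hu) h0)) x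
  exact ⟨u, hu, fun v hv => hb v (hU hv) _ (C.sub_mem hx (hU hu)) (h v hv)⟩

/-- rational functionals on a space of rational classes are given by classes -/
theorem riesz_of_pos {V W : Type*} [AddCommGroup V] [Module E V] [Module ℚ V] [AddCommGroup W]
    [Module E W] (p : V →ₗ[E] W →ₗ[E] E) (L : V →ₗ[E] W) (C : Submodule ℚ V)
    [FiniteDimensional ℚ C] (hrat : ∀ x ∈ C, ∀ y ∈ C, ∃ r : ℚ, p x (L y) = r)
    (hpos : ∀ x ∈ C, p x (L x) = 0 → x = 0) (y : W) (hy : ∀ x ∈ C, ∃ r : ℚ, p x y = r) :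
    ∃ t ∈ C, ∀ x ∈ C, p x y = p x (L t) := by
  obtain ⟨ρ, hρ⟩ := exists_retr E
  letI : Module ℚ W := Module.compHom W (algebraMap ℚ E)
  let T : C →ₗ[ℚ] Module.Dual ℚ C := LinearMap.mk₂ ℚ (fun t x => ρ (p x (L t)))
    (fun t t' x => by rw [Submodule.coe_add, map_add, map_add, map_add])
    (fun c t x => by
      have h1 : ((c • t : C) : V) = (c : E) • (t : V) := (Rat.cast_smul_eq_qsmul E c (t : V)).symm
      rw [h1, map_smul, map_smul, Rat.cast_smul_eq_qsmul, map_smul])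
    (fun t x x' => by rw [Submodule.coe_add, map_add, LinearMap.add_apply, map_add])
    (fun c t x => by
      have h1 : ((c • x : C) : V) = (c : E) • (x : V) := (Rat.cast_smul_eq_qsmul E c (x : V)).symm
      rw [h1, map_smul, LinearMap.smul_apply, Rat.cast_smul_eq_qsmul, map_smul])
  have hT : Function.Injective T := by
    rw [← LinearMap.ker_eq_bot, LinearMap.ker_eq_bot']
    intro t ht
    apply Subtype.ext
    apply hpos _ t.2
    obtain ⟨r, hr⟩ := hrat t t.2 t t.2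
    have h1 : ρ (p t (L t)) = 0 := congrArg (fun f : Module.Dual ℚ C => f t) ht
    rw [hr, hρ] at h1
    rw [hr, h1, Rat.cast_zero]
  have hT' : Function.Surjective T := by
    rw [← LinearMap.injective_iff_surjective_of_finrank_eq_finrank]
    · exact hT
    · exact (Subspace.dual_finrank_eq).symm
  let φ : Module.Dual ℚ C :=
    { toFun := fun x => ρ (p x y)
      map_add' := fun x x' => by rw [Submodule.coe_add, map_add, LinearMap.add_apply, map_add]
      map_smul' := fun c x => by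
        have h1 : ((c • x : C) : V) = (c : E) • (x : V) :=
          (Rat.cast_smul_eq_qsmul E c (x : V)).symm
        rw [h1, map_smul, LinearMap.smul_apply, Rat.cast_smul_eq_qsmul, map_smul]
        rfl }
  obtain ⟨t, ht⟩ := hT' φ
  refine ⟨t, t.2, fun x hx => ?_⟩
  obtain ⟨r, hr⟩ := hy x hx
  obtain ⟨r', hr'⟩ := hrat x hx t t.2
  have h1 : ρ (p x (L t)) = ρ (p x y) := congrArg (fun f : Module.Dual ℚ C => f ⟨x, hx⟩) ht
  rw [hr, hr', hρ, hρ] at h1
  rw [hr, hr', h1]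

theorem exists_coord {V ι : Type*} [AddCommGroup V] [Module E V] [Module ℚ V]
    (b : Module.Basis ι ℚ E) (C : Submodule ℚ V) (x : V) (hx : x ∈ Submodule.span E (C : Set V)) :
    ∃ f : ι →₀ V, (∀ i, f i ∈ C) ∧ x = f.sum fun i v => b i • v := by
  induction hx using Submodule.closure_induction with
  | zero => exact ⟨0, fun i => C.zero_mem, by rw [Finsupp.sum_zero_index]⟩
  | add x y _ _ ihx ihy =>
    obtain ⟨f, hf, rfl⟩ := ihx
    obtain ⟨g, hg, rfl⟩ := ihy
    refine ⟨f + g, fun i => C.add_mem (hf i) (hg i), ?_⟩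
    rw [Finsupp.sum_add_index']
    · intro i; exact smul_zero _
    · intro i v w; exact smul_add _ _ _
  | smul_mem e c hc =>
    refine ⟨(b.repr e).mapRange (fun r => r • c) (zero_smul _ _), fun i => ?_, ?_⟩
    · rw [Finsupp.mapRange_apply]
      exact C.smul_mem _ hc
    · rw [Finsupp.sum_mapRange_index (fun i => smul_zero _)]
      have h1 : (b.repr e).sum (fun i r => r • b i) = e := b.linearCombination_repr e
      have h2 : e • c = ((b.repr e).sum (fun i r => r • b i)) • c := by rw [h1]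
      rw [h2, Finsupp.sum, Finsupp.sum, Finset.sum_smul]
      apply Finset.sum_congr rfl
      intro i _
      rw [← Rat.cast_smul_eq_qsmul E ((b.repr e) i) c, smul_smul]
      congr 1
      rw [Rat.smul_def, mul_comm]

/-- Rational linear conditions on a combination of rational vectors hold for its rational
components. -/
theorem span_descent {V J : Type*} [AddCommGroup V] [Module E V] [Module ℚ V]
    (C : Submodule ℚ V) (φ : J → V →ₗ[E] E) (hrat : ∀ j, ∀ c ∈ C, ∃ r : ℚ, φ j c = r) (x : V)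
    (hx : x ∈ Submodule.span E (C : Set V)) (h0 : ∀ j, φ j x = 0) :
    x ∈ Submodule.span E {c | c ∈ C ∧ ∀ j, φ j c = 0} := by
  classical
  let b := Module.Basis.ofVectorSpace ℚ E
  obtain ⟨f, hf, rfl⟩ := exists_coord b C x hx
  apply Submodule.sum_mem
  intro i hi
  apply Submodule.smul_mem
  apply Submodule.subset_span
  refine ⟨hf i, fun j => ?_⟩
  choose r hr using fun i => hrat j (f i) (hf i)
  have h1 := h0 j
  rw [Finsupp.sum, map_sum] at h1
  have h2 : ∑ i ∈ f.support, r i • b i = 0 := by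
    rw [← h1]
    apply Finset.sum_congr rfl
    intro i _
    rw [map_smul, hr, Rat.smul_def, smul_eq_mul, mul_comm]
  have h3 := linearIndependent_iff'.1 b.linearIndependent f.support r h2 i hi
  rw [hr, h3, Rat.cast_zero]

variable {V00 V02 V04 V06 V11 V13 V15 V22 V24 V33 : Type*}
  [AddCommGroup V00] [Module E V00] [AddCommGroup V02] [Module E V02] [AddCommGroup V04]
  [Module E V04] [AddCommGroup V06] [Module E V06] [AddCommGroup V11] [Module E V11]
  [AddCommGroup V13] [Module E V13] [AddCommGroup V15] [Module E V15] [AddCommGroup V22]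
  [Module E V22] [AddCommGroup V24] [Module E V24] [AddCommGroup V33] [Module E V33]
  [Module ℚ V00] [Module ℚ V11] [Module ℚ V22] [Module ℚ V02] [Module ℚ V13]

/-- The rational part of the statement. -/
theorem rational_part
    (r00 : V00 →ₗ[E] V11) (r02 : V02 →ₗ[E] V13) (r04 : V04 →ₗ[E] V15) (r11 : V11 →ₗ[E] V22)
    (r13 : V13 →ₗ[E] V24) (r22 : V22 →ₗ[E] V33)
    (g11 : V11 →ₗ[E] V02) (g13 : V13 →ₗ[E] V04) (g15 : V15 →ₗ[E] V06) (g22 : V22 →ₗ[E] V13)
    (g24 : V24 →ₗ[E] V15)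
    (l00 : V00 →ₗ[E] V02) (l02 : V02 →ₗ[E] V04) (l04 : V04 →ₗ[E] V06) (l11 : V11 →ₗ[E] V13)
    (l13 : V13 →ₗ[E] V15) (l22 : V22 →ₗ[E] V24)
    (p06 : V00 →ₗ[E] V06 →ₗ[E] E) (p24 : V02 →ₗ[E] V04 →ₗ[E] E) (p15 : V11 →ₗ[E] V15 →ₗ[E] E)
    (p33 : V13 →ₗ[E] V13 →ₗ[E] E) (q24 : V22 →ₗ[E] V24 →ₗ[E] E)
    (C00 : Submodule ℚ V00) (C11 : Submodule ℚ V11) (C22 : Submodule ℚ V22)
    (C02 : Submodule ℚ V02) (C13 : Submodule ℚ V13)
    [FiniteDimensional ℚ C11] [FiniteDimensional ℚ C22]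
    -- complex
    (rr1 : ∀ x, r11 (r00 x) = 0) (rr2 : ∀ x, r13 (r02 x) = 0) (rr3 : ∀ x, r22 (r11 x) = 0)
    (gr1 : ∀ x, g22 (r11 x) + r02 (g11 x) = 0) (rg : ∀ k, r22 k = 0 → r13 (g22 k) = 0)
    -- Lefschetz
    (lr0 : ∀ x, l11 (r00 x) = r02 (l00 x)) (lr2 : ∀ x, l13 (r02 x) = r04 (l02 x))
    (lg1 : ∀ x, l02 (g11 x) = g13 (l11 x)) (lg3 : ∀ x, l04 (g13 x) = g15 (l13 x))
    (lg2 : ∀ x, l13 (g22 x) = g24 (l22 x))
    -- duality
    (a0 : ∀ s y, p15 (r00 s) y = p06 s (g15 y)) (a4 : ∀ t w, p15 t (r04 w) = p24 (g11 t) w)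
    (a1 : ∀ t y, p15 t (g24 y) = q24 (r11 t) y) (a3 : ∀ z k, r13 z = 0 → p33 z (g22 k) = 0)
    (la : ∀ t z, p15 t (l13 z) = p33 (l11 t) z) (symm : ∀ x y, p33 x y = p33 y x)
    (n11 : ∀ y, (∀ t ∈ C11, p15 t y = 0) → y = 0) (n00 : ∀ y, (∀ s ∈ C00, p06 s y = 0) → y = 0)
    -- rational classes
    (s00 : ∀ x ∈ C00, r00 x ∈ C11) (s11 : ∀ x ∈ C11, r11 x ∈ C22) (t11 : ∀ x ∈ C11, g11 x ∈ C02)
    (u00 : ∀ x ∈ C00, l00 x ∈ C02) (s02 : ∀ x ∈ C02, r02 x ∈ C13) (t22 : ∀ x ∈ C22, g22 x ∈ C13)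
    (rat1 : ∀ x ∈ C11, ∀ y ∈ C11, ∃ r : ℚ, p15 x (l13 (l11 y)) = r)
    (rat2 : ∀ x ∈ C22, ∀ y ∈ C22, ∃ r : ℚ, q24 x (l22 y) = r)
    (pos1 : ∀ x ∈ C11, p15 x (l13 (l11 x)) = 0 → x = 0)
    (pos2 : ∀ x ∈ C22, q24 x (l22 x) = 0 → x = 0)
    (top1 : ∀ z ∈ C13, ∃ t ∈ C11, l13 z = l13 (l11 t))
    (top2 : ∀ k ∈ C22, ∃ t ∈ C11, g24 (l22 k) = l13 (l11 t))
    (H0 : ∀ d ∈ C02, l04 (l02 d) = 0 → p24 d (l02 d) = 0 → d = 0)
    (H1 : ∀ z ∈ C13, l13 z = 0 → p33 z z = 0 → z = 0)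
    (m : V02) (hm : m ∈ C02) (N1 : ∀ m' ∈ C02, p33 (r02 m) (r02 m') = 0) :
    ∃ k ∈ C22, r22 k = 0 ∧ r02 m = g22 k := by
  have symb : ∀ t t', p15 t (l13 (l11 t')) = p15 t' (l13 (l11 t)) := by
    intro t t'
    rw [la, la, symm]
  have L1 := proj_of_pos p15 (l13.comp l11) C11 rat1 pos1
  have L2 := proj_of_pos q24 l22 C22 rat2 pos2
  -- elements of ker r11 in C11 are orthogonal to l13 (r02 m)
  have step0 : ∀ v ∈ C11, r11 v = 0 → p15 v (l13 (r02 m)) = 0 := by
    intro v hv hrv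
    let U : Submodule ℚ V11 :=
      { carrier := {t | ∃ s ∈ C00, r00 s = t}
        zero_mem' := ⟨0, C00.zero_mem, map_zero _⟩
        add_mem' := by
          rintro _ _ ⟨s, hs, rfl⟩ ⟨s', hs', rfl⟩
          exact ⟨s + s', C00.add_mem hs hs', map_add _ _ _⟩
        smul_mem' := by
          rintro c _ ⟨s, hs, rfl⟩
          exact ⟨c • s, C00.smul_mem c hs, map_rat_smul r00 c s⟩ }
    obtain ⟨_, ⟨s, hs, rfl⟩, hu⟩ := L1 U (by rintro _ ⟨s, hs, rfl⟩; exact s00 s hs) v hv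
    set t := v - r00 s with ht
    have hvt : v = r00 s + t := by rw [ht]; abel
    have htC : t ∈ C11 := C11.sub_mem hv (s00 s hs)
    have hrt : r11 t = 0 := by rw [ht, map_sub, hrv, rr1, sub_zero]
    have e1 : l04 (l02 (g11 t)) = 0 := by
      apply n00
      intro s' hs'
      rw [lg1, lg3, ← a0]
      exact hu _ ⟨s', hs', rfl⟩
    have hd : r02 (g11 t) = 0 := by
      have := gr1 t
      rwa [hrt, map_zero, zero_add] at this
    have e2 : p24 (g11 t) (l02 (g11 t)) = 0 := by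
      rw [← a4, ← lr2, hd, map_zero, map_zero]
    have e3 : g11 t = 0 := H0 _ (t11 t htC) e1 e2
    rw [hvt, map_add, LinearMap.add_apply, la (r00 s), lr0, symm, N1 _ (u00 s hs), zero_add, lr2, a4,
      e3, map_zero, LinearMap.zero_apply]
  -- step 1
  have step1 : ∃ y ∈ C22, l13 (r02 m) = g24 (l22 y) := by
    obtain ⟨t0, ht0, e0⟩ := top1 _ (s02 m hm)
    let U : Submodule ℚ V11 :=
      { carrier := {t | t ∈ C11 ∧ ∃ y ∈ C22, l13 (l11 t) = g24 (l22 y)}
        zero_mem' := ⟨C11.zero_mem, 0, C22.zero_mem, by simp only [map_zero]⟩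
        add_mem' := by
          rintro a b ⟨ha, y, hy, e⟩ ⟨hb, y', hy', e'⟩
          exact ⟨C11.add_mem ha hb, y + y', C22.add_mem hy hy', by simp only [map_add, e, e']⟩
        smul_mem' := by
          rintro c a ⟨ha, y, hy, e⟩
          refine ⟨C11.smul_mem c ha, c • y, C22.smul_mem c hy, ?_⟩
          have h1 : c • a = (c : E) • a := (Rat.cast_smul_eq_qsmul E c a).symm
          have h2 : c • y = (c : E) • y := (Rat.cast_smul_eq_qsmul E c y).symm
          rw [h1, h2]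
          simp only [map_smul, e] }
    obtain ⟨u, hu, h⟩ := L1 U (fun t ht => ht.1) t0 ht0
    set v := t0 - u with hv
    have hvC : v ∈ C11 := C11.sub_mem ht0 hu.1
    have hrv : r11 v = 0 := by
      obtain ⟨t1, ht1, e1⟩ := top2 _ (s11 v hvC)
      have h1 : t1 ∈ U := ⟨ht1, r11 v, s11 v hvC, e1.symm⟩
      apply pos2 _ (s11 v hvC)
      rw [← a1, e1, symb]
      exact h t1 h1
    have hvv : p15 v (l13 (l11 v)) = 0 := by
      have h1 : p15 v (l13 (l11 v)) = p15 v (l13 (l11 t0)) - p15 v (l13 (l11 u)) := by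
        rw [← map_sub, ← map_sub, ← map_sub]
      rw [h1, ← e0, step0 v hvC hrv, symb v u]
      have h2 : p15 u (l13 (l11 v)) = 0 := h u hu
      rw [h2, sub_zero]
    have hv0 : v = 0 := pos1 v hvC hvv
    obtain ⟨y, hy, e⟩ := hu.2
    refine ⟨y, hy, ?_⟩
    rw [e0, ← e, sub_eq_zero.1 hv0]
  -- step 2
  obtain ⟨y2, hy2, e2⟩ := step1
  let K : Submodule ℚ V22 :=
    { carrier := {k | k ∈ C22 ∧ r22 k = 0}
      zero_mem' := ⟨C22.zero_mem, map_zero _⟩
      add_mem' := by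
        rintro a b ⟨ha, e⟩ ⟨hb, e'⟩
        exact ⟨C22.add_mem ha hb, by rw [map_add, e, e', add_zero]⟩
      smul_mem' := by
        rintro c a ⟨ha, e⟩
        refine ⟨C22.smul_mem c ha, ?_⟩
        have h1 : c • a = (c : E) • a := (Rat.cast_smul_eq_qsmul E c a).symm
        rw [h1, map_smul, e, smul_zero] }
  obtain ⟨k, hk, h⟩ := L2 K (fun t ht => ht.1) y2 hy2
  have e3 : g24 (l22 (y2 - k)) = 0 := by
    apply n11
    intro t ht
    rw [a1]
    exact h _ ⟨s11 t ht, rr3 t⟩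
  have e4 : l13 (r02 m) = g24 (l22 k) := by
    rw [e2]
    rw [map_sub, map_sub, sub_eq_zero] at e3
    exact e3
  refine ⟨k, hk.1, hk.2, ?_⟩
  -- step 3
  have hz : r02 m - g22 k = 0 := by
    apply H1 _ (C13.sub_mem (s02 m hm) (t22 k hk.1))
    · rw [map_sub, e4, lg2, sub_self]
    · have h1 : r13 (r02 m - g22 k) = 0 := by rw [map_sub, rr2, rg k hk.2, sub_self]
      have h2 : p33 (r02 m - g22 k) (g22 k) = 0 := a3 _ _ h1
      have h3 : p33 (r02 m) (g22 k) = 0 := a3 _ _ (rr2 m)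
      have h4 : p33 (r02 m - g22 k) (r02 m) = 0 := by
        rw [map_sub, LinearMap.sub_apply, N1 m hm, symm, h3, sub_zero]
      rw [map_sub (p33 (r02 m - g22 k)), h4, h2, sub_zero]
  exact sub_eq_zero.1 hz

end

end Pool.Agent.W522.M
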