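import Mathlib

/-! Simple common roots. -/

set_option autoImplicit false

namespace Pool.Agent.W522.M

open Polynomial

/-- Every complex number other than `q` which is a root of `P₁` and of `P₂` is a simple root of
`P₂`. -/
def SimpleCommonRoots (P₁ P₂ : ℤ[X]) (q : ℕ) : Prop :=
  ∀ z : ℂ, z ≠ q → aeval z P₁ = 0 → aeval z P₂ = 0 → aeval z (derivative P₂) ≠ 0

lemma dvd_pow_of_roots {d : ℚ[X]} (hd : d ≠ 0) (c : ℚ) (h : ∀ z : ℂ, aeval z d = 0 → z = c) :
    d ∣ (X - C c) ^ d.natDegree := by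
  rw [← Polynomial.map_dvd_map' (algebraMap ℚ ℂ)]
  have h1 : (d.map (algebraMap ℚ ℂ)).Splits := IsAlgClosed.splits _
  have h2 := h1.eq_prod_roots
  have h3 : (d.map (algebraMap ℚ ℂ)).roots = Multiset.replicate d.natDegree (c : ℂ) := by
    rw [Multiset.eq_replicate]
    constructor
    · rw [← h1.natDegree_eq_card_roots, natDegree_map]
    · intro b hb
      apply h
      rw [mem_roots (Polynomial.map_ne_zero hd), IsRoot.def, eval_map_algebraMap] at hb
      exact hb
  rw [h2, h3, Multiset.map_replicate, Multiset.prod_replicate]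
  have h4 : ((X - C c) ^ d.natDegree : ℚ[X]).map (algebraMap ℚ ℂ) =
      (X - C (c : ℂ)) ^ d.natDegree := by
    simp only [Polynomial.map_pow, Polynomial.map_sub, map_X, map_C, eq_ratCast]
  rw [h4]
  have h5 : IsUnit (C (d.map (algebraMap ℚ ℂ)).leadingCoeff) := by
    rw [isUnit_C, isUnit_iff_ne_zero, leadingCoeff_ne_zero]
    exact Polynomial.map_ne_zero hd
  exact (h5.mul_left_dvd).2 dvd_rfl

theorem simple_of_common {E : Type*} [Field E] [CharZero E] {P₁ P₂ : ℤ[X]} {q : ℕ}
    (h : SimpleCommonRoots P₁ P₂ q) (hP : P₁ ≠ 0) (f : E[X]) (hf : Irreducible f)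
    (hq : ¬ f ∣ X - C (q : E)) (h1 : f ∣ P₁.map (Int.castRingHom E)) :
    ¬ f ^ 2 ∣ P₂.map (Int.castRingHom E) := by
  classical
  intro h2
  set p1 := P₁.map (Int.castRingHom ℚ) with hp1
  set p2 := P₂.map (Int.castRingHom ℚ) with hp2
  have e1 : ∀ P : ℤ[X], (P.map (Int.castRingHom ℚ)).map (algebraMap ℚ E) =
      P.map (Int.castRingHom E) := by
    intro P
    rw [Polynomial.map_map]
    congr 1
    exact RingHom.ext_int _ _
  have e2 : ∀ (z : ℂ) (P : ℤ[X]), aeval z (P.map (Int.castRingHom ℚ)) = aeval z P :=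
    fun z P => aeval_map_algebraMap ℚ z P
  let d := EuclideanDomain.gcd p1 (EuclideanDomain.gcd p2 (derivative p2))
  have hd1 : d ∣ p1 := EuclideanDomain.gcd_dvd_left _ _
  have hd2 : d ∣ p2 := (EuclideanDomain.gcd_dvd_right _ _).trans (EuclideanDomain.gcd_dvd_left _ _)
  have hd3 : d ∣ derivative p2 :=
    (EuclideanDomain.gcd_dvd_right _ _).trans (EuclideanDomain.gcd_dvd_right _ _)
  have hp1' : p1 ≠ 0 := (Polynomial.map_ne_zero_iff (RingHom.injective_int _)).2 hP
  have hd0 : d ≠ 0 := fun h0 => hp1' (by rw [h0] at hd1; exact zero_dvd_iff.1 hd1)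
  have hroot : ∀ (z : ℂ) (a b : ℚ[X]), a ∣ b → aeval z a = 0 → aeval z b = 0 := by
    rintro z a _ ⟨c, rfl⟩ h0
    rw [map_mul, h0, zero_mul]
  have h3 : d ∣ (X - C (q : ℚ)) ^ d.natDegree := by
    apply dvd_pow_of_roots hd0
    intro z hz
    by_contra hne
    have h4 := hroot z _ _ hd1 hz
    have h5 := hroot z _ _ hd2 hz
    have h6 := hroot z _ _ hd3 hz
    rw [hp1, e2] at h4
    rw [hp2, e2] at h5
    rw [hp2, derivative_map, e2] at h6
    exact h z (by rwa [Rat.cast_natCast] at hne) h4 h5 h6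
  have h7 : f ∣ d.map (algebraMap ℚ E) := by
    have b1 := EuclideanDomain.gcd_eq_gcd_ab p1 (EuclideanDomain.gcd p2 (derivative p2))
    have b2 := EuclideanDomain.gcd_eq_gcd_ab p2 (derivative p2)
    have f1 : f ∣ p1.map (algebraMap ℚ E) := by rw [hp1, e1]; exact h1
    have f2 : f ∣ p2.map (algebraMap ℚ E) := by
      rw [hp2, e1]
      exact (dvd_pow_self f two_ne_zero).trans h2
    have f3 : f ∣ (derivative p2).map (algebraMap ℚ E) := by
      rw [← derivative_map, hp2, e1]
      obtain ⟨g, hg⟩ := h2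
      rw [hg, derivative_mul, derivative_pow]
      refine dvd_add ?_ ?_
      · refine Dvd.dvd.mul_right ?_ _
        refine Dvd.dvd.mul_right ?_ _
        refine Dvd.dvd.mul_left ?_ _
        simp
      · exact (dvd_pow_self f two_ne_zero).trans (dvd_mul_right _ _)
    have f4 : f ∣ (EuclideanDomain.gcd p2 (derivative p2)).map (algebraMap ℚ E) := by
      rw [b2, Polynomial.map_add, Polynomial.map_mul, Polynomial.map_mul]
      exact dvd_add (f2.mul_right _) (f3.mul_right _)
    change f ∣ (EuclideanDomain.gcd p1 (EuclideanDomain.gcd p2 (derivative p2))).map _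
    rw [b1, Polynomial.map_add, Polynomial.map_mul, Polynomial.map_mul]
    exact dvd_add (f1.mul_right _) (f4.mul_right _)
  have h8 : f ∣ (X - C (q : E)) ^ d.natDegree := by
    have h9 := Polynomial.map_dvd (algebraMap ℚ E) h3
    rw [Polynomial.map_pow, Polynomial.map_sub, map_X, map_C, _root_.map_natCast] at h9
    exact h7.trans h9
  exact hq (hf.prime.dvd_of_dvd_pow h8)

end Pool.Agent.W522.M
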