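import Mathlib
import Pool.Agent.W522.M.Defs
import Pool.Agent.W522.M.M2
import Pool.Agent.W522.M.M4

/-! Weight-monodromy for threefolds. -/

set_option autoImplicit false

namespace Pool.Agent.W522.M

open Polynomial Module

variable {E : Type} [Field E] {D : Strata E}

lemma InCol.mono {p p' : ℤ} {a : ℕ} (h : p.natAbs ≤ p'.natAbs) (he : Even (p' - p))
    (ha : InCol p' a) : InCol p a := by
  refine ⟨h.trans ha.1, ?_⟩
  have h1 : (a : ℤ) - p = ((a : ℤ) - p') + (p' - p) := by ring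
  rw [h1]
  exact ha.2.add he

lemma diff_pos {p : ℤ} {w : ℕ} (x : D.Ch w) {a : ℕ} (h : InCol (p + 1) a) :
    D.d p w x a = tot x a := by
  change diff p x a = tot x a
  unfold diff
  rw [if_pos h]

lemma diff_neg {p : ℤ} {w : ℕ} (x : D.Ch w) {a : ℕ} (h : ¬ InCol (p + 1) a) :
    D.d p w x a = 0 := by
  change diff p x a = 0
  unfold diff
  rw [if_neg h]

lemma mem_Z {p : ℤ} {w : ℕ} (x : D.Ch w) : x ∈ D.Z p w ↔ (∀ a, ¬ InCol p a → x a = 0) ∧
    ∀ a, InCol (p + 1) a → tot x a = 0 := by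
  constructor
  · rintro ⟨h1, h2⟩
    refine ⟨h1, fun a ha => ?_⟩
    rw [← diff_pos x ha]
    exact congrFun (LinearMap.mem_ker.1 h2) a
  · rintro ⟨h1, h2⟩
    refine ⟨h1, LinearMap.mem_ker.2 ?_⟩
    funext a
    by_cases ha : InCol (p + 1) a
    · rw [diff_pos x ha, h2 a ha]
      rfl
    · rw [diff_neg x ha]
      rfl

lemma mem_B {p : ℤ} {w : ℕ} (x : D.Ch (w + 1)) : x ∈ D.B p (w + 1) ↔
    ∃ y : D.Ch w, (∀ a, ¬ InCol (p - 1) a → y a = 0) ∧ (∀ a, InCol p a → x a = tot y a) ∧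
      ∀ a, ¬ InCol p a → x a = 0 := by
  have hp : p - 1 + 1 = p := by ring
  constructor
  · rintro ⟨y, hy, rfl⟩
    refine ⟨y, hy, fun a ha => ?_, fun a ha => ?_⟩
    · rw [diff_pos y (by rwa [hp])]
    · rw [diff_neg y (by rwa [hp])]
  · rintro ⟨y, hy, h1, h2⟩
    refine ⟨y, hy, ?_⟩
    funext a
    by_cases ha : InCol p a
    · rw [diff_pos y (by rwa [hp]), h1 a ha]
    · rw [diff_neg y (by rwa [hp]), h2 a ha]

lemma Z_le (r w : ℕ) : D.Z (-(r : ℤ)) w ≤ D.Z r w := by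
  intro x hx
  rw [mem_Z] at hx ⊢
  exact ⟨fun a ha => hx.1 a fun ha' => ha (ha'.mono (by simp) ⟨-r, by ring⟩),
    fun a ha => hx.2 a (ha.mono (by omega) ⟨r, by ring⟩)⟩

lemma B_le (r w : ℕ) (hr : 1 ≤ r) : D.B (-(r : ℤ)) w ≤ D.B r w := by
  cases w with
  | zero => exact le_rfl
  | succ w =>
    intro x hx
    rw [mem_B] at hx ⊢
    obtain ⟨y, h0, h1, h2⟩ := hx
    exact ⟨y, fun a ha => h0 a fun ha' => ha (ha'.mono (by omega) ⟨-r, by ring⟩),
      fun a ha => h1 a (ha.mono (by simp) ⟨r, by ring⟩),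
      fun a ha => h2 a fun ha' => ha (ha'.mono (by simp) ⟨-r, by ring⟩)⟩

/-- surjectivity from injectivity, by duality -/
theorem surj_of_inj {K : Type*} [AddCommGroup K] [Module E K] [FiniteDimensional E K]
    (Ψ : LinearMap.BilinForm E K) (hsym : ∀ x y, Ψ x y = Ψ y x)
    (hnd : ∀ x, (∀ y, Ψ x y = 0) → x = 0) (Z B Z' B' : Submodule E K)
    (h1 : ∀ x, x ∈ Z ↔ ∀ y ∈ B', Ψ y x = 0) (h2 : ∀ x ∈ B, ∀ y ∈ Z', Ψ y x = 0)
    (h3 : ∀ x ∈ Z, x ∈ B' → x ∈ B) : Z' ≤ Z ⊔ B' := by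
  have hr : Ψ.IsRefl := fun x y h => by rw [hsym, h]
  have hn : Ψ.Nondegenerate := by
    refine ⟨hnd, fun y hy => hnd y fun x => ?_⟩
    rw [hsym]
    exact hy x
  have e1 : Ψ.orthogonal B' = Z := by
    ext x
    exact (h1 x).symm
  have e2 : Ψ.orthogonal Z = B' := by
    rw [← e1]
    exact LinearMap.BilinForm.orthogonal_orthogonal hn hr B'
  have e3 : Ψ.orthogonal (Z ⊔ B') ≤ Ψ.orthogonal Z' := by
    intro x hx
    have f1 : x ∈ B' := by
      rw [← e2]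
      exact LinearMap.BilinForm.orthogonal_le le_sup_left hx
    have f2 : x ∈ Z := by
      rw [← e1]
      exact LinearMap.BilinForm.orthogonal_le le_sup_right hx
    exact h2 x (h3 x f2 f1)
  calc Z' ≤ Ψ.orthogonal (Ψ.orthogonal Z') := LinearMap.BilinForm.le_orthogonal_orthogonal hr
    _ ≤ Ψ.orthogonal (Ψ.orthogonal (Z ⊔ B')) := LinearMap.BilinForm.orthogonal_le e3
    _ = Z ⊔ B' := LinearMap.BilinForm.orthogonal_orthogonal hn hr _

end Pool.Agent.W522.M
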