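import Mathlib
import Pool.Agent.W522.M.M3

/-! Weight-monodromy for threefolds. -/

set_option autoImplicit false

namespace Pool.Agent.W522.M

open Polynomial Module

variable {E : Type} [Field E] {D : Strata E}

lemma inCol_zero {a : ℕ} : InCol 0 a ↔ Even a := by
  unfold InCol
  rw [sub_zero, Int.even_coe_nat]
  simp

lemma inCol_one {a : ℕ} : InCol 1 a ↔ Odd a := by
  unfold InCol
  rw [Int.even_sub_one, Int.not_even_iff_odd, Int.odd_coe_nat]
  constructor
  · exact fun h => h.2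
  · exact fun h => ⟨h.pos, h⟩

lemma inCol_neg_one {a : ℕ} : InCol (-1) a ↔ Odd a := by
  rw [← inCol_one]
  exact ⟨fun h => h.mono (by decide) ⟨-1, by ring⟩, fun h => h.mono (by decide) ⟨1, by ring⟩⟩

lemma inCol_two {a : ℕ} : InCol 2 a ↔ 2 ≤ a ∧ Even a := by
  unfold InCol
  rw [Int.even_sub, Int.even_coe_nat]
  simp

lemma inCol_neg_two {a : ℕ} : InCol (-2) a ↔ 2 ≤ a ∧ Even a := by
  rw [← inCol_two]
  exact ⟨fun h => h.mono (by decide) ⟨-2, by ring⟩, fun h => h.mono (by decide) ⟨2, by ring⟩⟩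

/-- the hard Lefschetz theorem for the generic fibre, from `E_2^(0,2)` to `E_2^(0,4)` -/
lemma hs_of_generic (hG : D.GenericLefschetz 3) (a : D.V 0 2)
    (ha : rho (lam a) = 0) : ∃ (a0 : D.V 0 2) (b : D.V 1 3) (y : D.V 2 2),
      lam a = lam a0 + gam b ∧ rho a0 + gam y = 0 := by
  classical
  obtain ⟨-, -, -, h⟩ := hG 0 2 1 rfl
  let Y : D.Ch (2 + 2 * 1) := Pi.single 0 (lam a)
  have hY0 : Y 0 = lam a := Pi.single_eq_same _ _
  have hY : ∀ a, a ≠ 0 → Y a = 0 := fun a ha => Pi.single_eq_of_ne ha _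
  have hYZ : Y ∈ D.Z 0 (2 + 2 * 1) := by
    rw [mem_Z]
    refine ⟨fun a ha => hY a ?_, fun a ha => ?_⟩
    · rintro rfl
      exact ha (inCol_zero.2 (by decide))
    · rw [zero_add, inCol_one] at ha
      obtain ⟨a, rfl⟩ : ∃ b, a = b + 1 := ⟨a - 1, by have := ha.pos; omega⟩
      change rho (Y a) + gam (Y (a + 2)) = 0
      by_cases h0 : a = 0
      · subst h0
        rw [hY 2 (by decide), hY0]
        change rho (lam _) + D.gys _ _ 0 = 0
        rw [map_zero, add_zero]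
        exact ‹rho (lam _) = 0›
      · rw [hY a h0, hY (a + 2) (by omega)]
        change D.res _ _ 0 + D.gys _ _ 0 = 0
        rw [map_zero, map_zero, add_zero]
  obtain ⟨X, hX, hXY⟩ := h Y hYZ
  rw [SetLike.mem_coe, mem_Z] at hX
  obtain ⟨b, -, hb, -⟩ := (mem_B _).1 hXY
  refine ⟨X 0, b 1, X 2, ?_, ?_⟩
  · have h1 := hb 0 (inCol_zero.2 (by decide))
    change Y 0 - lam (X 0) = gam (b 1) at h1
    rw [hY0] at h1
    rw [← h1]
    abel
  · exact hX.2 1 (by rw [zero_add, inCol_one]; decide)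

end Pool.Agent.W522.M
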