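import Mathlib
import Pool.Agent.W522.M.M5

/-! Weight-monodromy for threefolds: the key step. -/

set_option autoImplicit false

namespace Pool.Agent.W522.M

open Polynomial Module

variable {E : Type} [Field E] [CharZero E] {D : Strata E}

/-- the non-Tate part -/
theorem key_non_tate {q : ℕ} (hq : q ≠ 0) (hL : D.IsLefschetz 3) (hF : D.IsFrobenius q)
    (hS : D.IsSplit 3 q) (hG : D.GenericLefschetz 3)
    (hs : ∀ f : E[X], Irreducible f → ¬ f ∣ X - C (q : E) → f ∣ (D.frob 0 2).charpoly →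
      ¬ f ^ 2 ∣ (D.frob 1 3).charpoly)
    (m : D.V 0 2) (hm : gam (rho m) = 0) :
    ∃ m0 : D.V 0 2, m0 ∈ Module.End.maxGenEigenspace (D.frob 0 2) (q : E) ∧ rho m = rho m0 := by
  have hq' : (q : E) ≠ 0 := Nat.cast_ne_zero.2 hq
  let r02 : D.V 0 2 →ₗ[E] D.V 1 3 := D.res 0 2
  let g13 : D.V 1 3 →ₗ[E] D.V 0 4 := D.gys 0 3
  let l02 : D.V 0 2 →ₗ[E] D.V 0 4 := D.lef 0 2
  let r04 : D.V 0 4 →ₗ[E] D.V 1 5 := D.res 0 4
  let g22 : D.V 2 2 →ₗ[E] D.V 1 3 := D.gys 1 2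
  obtain ⟨m0, ⟨k, hk⟩, h⟩ := non_tate (D.frob 0 2) (D.frob 0 4) (D.frob 1 3) r02 g13 l02
    (hL.bij 0 2 1 rfl) r04 g22 (q : E) hq' (fun x => hF.res 0 2 x) (fun y => hF.gys 0 3 y)
    (fun x => hF.lef 0 2 x)
    (fun x => by
      have h1 : phi (rho x) = rho (phi x) := hF.res 0 4 x
      have h2 : phi (rho x) = D.mul (q ^ (3 - 1)) (rho x) := hS.top 1 5 (rho x) rfl
      change rho (phi x) = (q : E) ^ 2 • rho x
      rw [← h1, h2]
      unfold Strata.mul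
      rw [Nat.cast_pow])
    (fun y => by
      have h1 : phi (gam y) = D.mul q (gam (phi y)) := hF.gys 1 2 y
      have h2 : phi y = y := hS.bottom 2 y
      rw [h2] at h1
      exact h1)
    (fun a ha => hs_of_generic hG a ha) hs m hm
  exact ⟨m0, (Module.End.mem_maxGenEigenspace _ _ _).2 ⟨k, hk⟩, h⟩

/-- the Tate part -/
theorem key_tate (hC : D.IsComplex) (hL : D.IsLefschetz 3) (hd : D.IsDuality 3) (A : D.Cycles)
    (hA : A.Stable) (hc : A.Components 3) (hr : A.Rational 3) (hH : A.HodgeIndex 3)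
    (m : D.V 0 2) (hm : m ∈ A.span 0 2) (h0 : gam (rho m) = 0) :
    ∃ k : D.V 2 2, rho k = 0 ∧ rho m = gam k := by
  letI : ∀ a w, Module ℚ (D.V a w) := fun a w => Module.compHom _ (algebraMap ℚ E)
  have hsm : ∀ a w (r : ℚ) (x : D.V a w), r • x = (r : E) • x := fun a w r x => rfl
  let Cq : ∀ a w, Submodule ℚ (D.V a w) := fun a w =>
    { (A.C a w) with
      smul_mem' := fun r x hx => A.smul a w r x hx }
  have hfin : ∀ a, FiniteDimensional ℚ (Cq a a) := by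
    intro a
    obtain ⟨s, hs⟩ := hc.finite a
    have h1 : Cq a a ≤ Submodule.span ℚ (s : Set (D.V a a)) := by
      intro x hx
      obtain ⟨c, hc⟩ := hs x hx
      rw [hc]
      exact Submodule.sum_mem _ fun y hy => Submodule.smul_mem _ (c y) (Submodule.subset_span hy)
    exact Submodule.finiteDimensional_of_le h1
  have := hfin 1
  have := hfin 2
  let r00 : D.V 0 0 →ₗ[E] D.V 1 1 := D.res 0 0
  let r02 : D.V 0 2 →ₗ[E] D.V 1 3 := D.res 0 2
  let r04 : D.V 0 4 →ₗ[E] D.V 1 5 := D.res 0 4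
  let r11 : D.V 1 1 →ₗ[E] D.V 2 2 := D.res 1 1
  let r13 : D.V 1 3 →ₗ[E] D.V 2 4 := D.res 1 3
  let r22 : D.V 2 2 →ₗ[E] D.V 3 3 := D.res 2 2
  let g11 : D.V 1 1 →ₗ[E] D.V 0 2 := D.gys 0 1
  let g13 : D.V 1 3 →ₗ[E] D.V 0 4 := D.gys 0 3
  let g15 : D.V 1 5 →ₗ[E] D.V 0 6 := D.gys 0 5
  let g22 : D.V 2 2 →ₗ[E] D.V 1 3 := D.gys 1 2
  let g24 : D.V 2 4 →ₗ[E] D.V 1 5 := D.gys 1 4
  let l00 : D.V 0 0 →ₗ[E] D.V 0 2 := D.lef 0 0
  let l02 : D.V 0 2 →ₗ[E] D.V 0 4 := D.lef 0 2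
  let l04 : D.V 0 4 →ₗ[E] D.V 0 6 := D.lef 0 4
  let l11 : D.V 1 1 →ₗ[E] D.V 1 3 := D.lef 1 1
  let l13 : D.V 1 3 →ₗ[E] D.V 1 5 := D.lef 1 3
  let l22 : D.V 2 2 →ₗ[E] D.V 2 4 := D.lef 2 2
  have symm33 : ∀ x y : D.V 1 3, D.pair 1 3 3 x y = D.pair 1 3 3 y x := by
    intro x y
    have h1 : D.pair 1 3 3 x y = (-1) ^ (3 + 1) * D.pair 1 3 3 y x := hd.symm 1 3 3 x y
    rw [h1]
    norm_num
  have symm15 : ∀ (x : D.V 1 1) (y : D.V 1 5), D.pair 1 1 5 x y = D.pair 1 5 1 y x := by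
    intro x y
    have h1 : D.pair 1 1 5 x y = (-1) ^ (1 + 1) * D.pair 1 5 1 y x := hd.symm 1 1 5 x y
    rw [h1]
    norm_num
  have symm24 : ∀ (x : D.V 0 2) (y : D.V 0 4), D.pair 0 2 4 x y = D.pair 0 4 2 y x := by
    intro x y
    have h1 : D.pair 0 2 4 x y = (-1) ^ (2 + 0) * D.pair 0 4 2 y x := hd.symm 0 2 4 x y
    rw [h1]
    norm_num
  have symm06 : ∀ (x : D.V 0 0) (y : D.V 0 6), D.pair 0 0 6 x y = D.pair 0 6 0 y x := by
    intro x y
    have h1 : D.pair 0 0 6 x y = (-1) ^ (0 + 0) * D.pair 0 6 0 y x := hd.symm 0 0 6 x y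
    rw [h1]
    norm_num
  have hratpos : ∀ r : ℚ, (r : E) = 0 → r = 0 := fun r h => Rat.cast_eq_zero.1 h
  have n11 : ∀ y : D.V 1 5, (∀ t ∈ Cq 1 1, D.pair 1 1 5 t y = 0) → y = 0 := by
    intro y hy
    apply hd.nondeg 1 5 1 rfl y
    intro t
    have h1 : t ∈ Submodule.span E (A.C 1 1 : Set (D.V 1 1)) := by
      have := hc.span 1
      unfold Strata.Cycles.span at this
      rw [this]
      exact Submodule.mem_top
    have h2 : Submodule.span E (A.C 1 1 : Set (D.V 1 1)) ≤ LinearMap.ker (D.pair 1 5 1 y) := by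
      rw [Submodule.span_le]
      intro t ht
      rw [SetLike.mem_coe, LinearMap.mem_ker, ← symm15]
      exact hy t ht
    exact h2 h1
  have rat1 : ∀ x ∈ Cq 1 1, ∀ y ∈ Cq 1 1, ∃ r : ℚ, D.pair 1 1 5 x (l13 (l11 y)) = r :=
    fun x hx y hy => hr 1 1 5 rfl x _ hx (hA.lef 1 3 _ (hA.lef 1 1 _ hy))
  have pos1 : ∀ x ∈ Cq 1 1, D.pair 1 1 5 x (l13 (l11 x)) = 0 → x = 0 := by
    intro x hx h
    by_contra hne
    obtain ⟨r, hr0, hr1⟩ := hc.pos 1 (by norm_num) x hx hne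
    have h2 : (r : E) = 0 := by rw [← hr1]; exact h
    exact hr0.ne' (hratpos r h2)
  have htop : ∀ y : D.V 1 5, A.Alg y → ∃ t ∈ Cq 1 1, y = l13 (l11 t) := by
    intro y hy
    obtain ⟨t, ht, h⟩ := riesz_of_pos (D.pair 1 1 5) (l13.comp l11) (Cq 1 1) rat1 pos1 y
      (fun x hx => hr 1 1 5 rfl x y hx hy)
    refine ⟨t, ht, sub_eq_zero.1 (n11 _ fun x hx => ?_)⟩
    rw [map_sub, h x hx]
    exact sub_self _
  have main : ∀ c ∈ Cq 0 2, (∀ m' ∈ Cq 0 2, D.pair 1 3 3 (r02 c) (r02 m') = 0) →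
      ∃ k ∈ Cq 2 2, r22 k = 0 ∧ r02 c = g22 k := by
    intro c hcc hN
    refine rational_part r00 r02 r04 r11 r13 r22 g11 g13 g15 g22 g24 l00 l02 l04 l11 l13 l22
      (D.pair 0 0 6) (D.pair 0 2 4) (D.pair 1 1 5) (D.pair 1 3 3) (D.pair 2 2 4)
      (Cq 0 0) (Cq 1 1) (Cq 2 2) (Cq 0 2) (Cq 1 3)
      (hC.res_res 0 0) (hC.res_res 0 2) (hC.res_res 1 1) (hC.gys_res 0 1) ?rg
      (hL.lef_res 0 0) (hL.lef_res 0 2) (hL.lef_gys 0 1) (hL.lef_gys 0 3) (hL.lef_gys 1 2)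
      (hd.adj 0 0 5) ?a4 (fun t y => (hd.adj 1 1 4 t y).symm) ?a3
      (fun t z => (hd.lef_adj 1 1 3 t z).symm) symm33 ?n11 ?n00
      (hA.res 0 0) (hA.res 1 1) (hA.gys 0 1) (hA.lef 0 0) (hA.res 0 2) (hA.gys 1 2)
      ?rat1 ?rat2 ?pos1 ?pos2 ?top1 ?top2 ?H0 ?H1 c hcc hN
    case rg =>
      intro k hk
      have h1 : gam (rho k) + rho (gam k) = 0 := hC.gys_res 1 2 k
      have h2 : gam (rho k) = 0 := by
        have h3 : rho k = 0 := hk
        rw [h3]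
        exact map_zero (D.gys 2 3)
      rw [h2, zero_add] at h1
      exact h1
    case a4 =>
      intro t w
      rw [symm15, symm24]
      exact hd.adj 0 4 1 w t
    case a3 =>
      intro z k hz
      have h1 : ip (rho z) k = ip z (gam k) := hd.adj 1 3 2 z k
      have h2 : rho z = 0 := hz
      rw [h2] at h1
      change ip z (gam k) = 0
      rw [← h1]
      change D.pair _ _ _ 0 k = 0
      rw [map_zero, LinearMap.zero_apply]
    case n11 => exact n11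
    case n00 =>
      intro y hy
      apply hd.nondeg 0 6 0 rfl y
      intro t
      have h1 : t ∈ Submodule.span E (A.C 0 0 : Set (D.V 0 0)) := by
        have := hc.span 0
        unfold Strata.Cycles.span at this
        rw [this]
        exact Submodule.mem_top
      have h2 : Submodule.span E (A.C 0 0 : Set (D.V 0 0)) ≤ LinearMap.ker (D.pair 0 6 0 y) := by
        rw [Submodule.span_le]
        intro t ht
        rw [SetLike.mem_coe, LinearMap.mem_ker, ← symm06]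
        exact hy t ht
      exact h2 h1
    case rat1 => exact rat1
    case rat2 =>
      intro x hx y hy
      exact hr 2 2 4 rfl x _ hx (hA.lef 2 2 _ hy)
    case pos1 => exact pos1
    case pos2 =>
      intro x hx h
      by_contra hne
      obtain ⟨r, hr0, hr1⟩ := hc.pos 2 (by norm_num) x hx hne
      have h2 : (r : E) = 0 := by rw [← hr1]; exact h
      exact hr0.ne' (hratpos r h2)
    case top1 =>
      intro z hz
      exact htop _ (hA.lef 1 3 _ hz)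
    case top2 =>
      intro k hk
      exact htop _ (hA.gys 1 4 _ (hA.lef 2 2 _ hk))
    case H0 =>
      intro d hdC h1 h2
      by_contra hne
      obtain ⟨r, hr0, hr1⟩ := hH 0 (by norm_num) d hdC h1 hne
      have h3 : (r : E) = 0 := by rw [← hr1]; exact h2
      exact hr0.ne (hratpos r h3)
    case H1 =>
      intro z hz h1 h2
      by_contra hne
      obtain ⟨r, hr0, hr1⟩ := hH 1 (by norm_num) z hz h1 hne
      have h3 : (r : E) = 0 := by rw [← hr1]; exact h2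
      exact hr0.ne (hratpos r h3)
  have hN : ∀ m' : D.V 0 2, D.pair 1 3 3 (r02 m) (r02 m') = 0 := by
    intro m'
    rw [symm33]
    have h1 : ip (rho m') (rho m) = ip m' (gam (rho m)) := hd.adj 0 2 3 m' (rho m)
    rw [h0] at h1
    change ip (rho m') (rho m) = 0
    rw [h1]
    exact map_zero (D.pair 0 2 4 m')
  have hspan := span_descent (Cq 0 2)
    (fun j : Cq 0 2 => ((D.pair 1 3 3).flip (r02 j)).comp r02)
    (fun j c hcc => hr 1 3 3 rfl _ _ (hA.res 0 2 _ hcc) (hA.res 0 2 _ j.2)) m hm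
    (fun j => hN j)
  have hle : Submodule.span E {c | c ∈ Cq 0 2 ∧
      ∀ j : Cq 0 2, (((D.pair 1 3 3).flip (r02 j)).comp r02) c = 0} ≤
      ((LinearMap.ker r22).map g22).comap r02 := by
    rw [Submodule.span_le]
    rintro c ⟨hcc, hj⟩
    obtain ⟨k, -, hk, e⟩ := main c hcc fun m' hm' => hj ⟨m', hm'⟩
    exact ⟨k, hk, e.symm⟩
  obtain ⟨k, hk, e⟩ := hle hspan
  exact ⟨k, hk, e.symm⟩

end Pool.Agent.W522.M
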