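import Mathlib
import Pool.Agent.W522.M.M6

/-! Weight-monodromy for threefolds: assembly. -/

set_option autoImplicit false

namespace Pool.Agent.W522.M

open Polynomial Module

variable {E : Type} [Field E] {D : Strata E}

lemma V_zero (hb : D.IsBounded 3) {a w : ℕ} (ha : 3 < a) (x : D.V a w) : x = 0 := hb.empty a w x ha

/-- the two nonzero components of a family in the columns `1`, `-1`, in total degree `3` -/
lemma odd_cases (hb : D.IsBounded 3) {w : ℕ} (x : D.Ch w) (h : ∀ a, ¬ Odd a → x a = 0)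
    (h1 : x 1 = 0) (h3 : x 3 = 0) : x = 0 := by
  funext a
  by_cases ha : Odd a
  · by_cases h4 : 3 < a
    · exact V_zero hb h4 _
    · obtain ⟨b, rfl⟩ := ha
      have : b = 0 ∨ b = 1 := by omega
      rcases this with rfl | rfl
      · exact h1
      · exact h3
  · exact h a ha

/-- a family with two components -/
def mk13 (w : ℕ) (x1 : D.V 1 w) (x3 : D.V 3 w) : D.Ch w
  | 1 => x1
  | 3 => x3
  | 0 => 0
  | 2 => 0
  | _ + 4 => 0

def mk2 (w : ℕ) (k : D.V 2 w) : D.Ch w
  | 2 => k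
  | 0 => 0
  | 1 => 0
  | _ + 3 => 0

def mk02 (w : ℕ) (m : D.V 0 w) (k : D.V 2 w) : D.Ch w
  | 0 => m
  | 2 => k
  | 1 => 0
  | _ + 3 => 0

lemma mk13_ne {w : ℕ} (x1 : D.V 1 w) (x3 : D.V 3 w) (a : ℕ) (ha : ¬ Odd a) :
    mk13 w x1 x3 a = 0 := by
  match a with
  | 0 => rfl
  | 1 => exact absurd (by decide) ha
  | 2 => rfl
  | 3 => exact absurd (by decide) ha
  | _ + 4 => rfl

lemma mem_Zm (hb : D.IsBounded 3) (x : D.Ch 3) : x ∈ D.Z (-1) 3 ↔
    (∀ a, ¬ Odd a → x a = 0) ∧ gam (x 1) = 0 ∧ rho (x 1) + gam (x 3) = 0 := by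
  rw [mem_Z]
  constructor
  · rintro ⟨h1, h2⟩
    refine ⟨fun a ha => h1 a (by rwa [inCol_neg_one]), ?_, ?_⟩
    · exact h2 0 (by rw [neg_add_cancel, inCol_zero]; decide)
    · exact h2 2 (by rw [neg_add_cancel, inCol_zero]; decide)
  · rintro ⟨h1, h2, h3⟩
    refine ⟨fun a ha => h1 a (by rwa [inCol_neg_one] at ha), fun a ha => ?_⟩
    rw [neg_add_cancel, inCol_zero] at ha
    by_cases h4 : 3 < a
    · exact V_zero hb h4 _
    · obtain ⟨b, rfl⟩ := ha
      have : b = 0 ∨ b = 1 := by omega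
      rcases this with rfl | rfl
      · exact h2
      · exact h3

lemma mem_Zp (hb : D.IsBounded 3) (x : D.Ch 3) : x ∈ D.Z 1 3 ↔
    (∀ a, ¬ Odd a → x a = 0) ∧ rho (x 1) + gam (x 3) = 0 := by
  rw [mem_Z]
  constructor
  · rintro ⟨h1, h2⟩
    refine ⟨fun a ha => h1 a (by rwa [inCol_one]), ?_⟩
    exact h2 2 (by
      have : (1 : ℤ) + 1 = 2 := by norm_num
      rw [this, inCol_two]; decide)
  · rintro ⟨h1, h3⟩
    refine ⟨fun a ha => h1 a (by rwa [inCol_one] at ha), fun a ha => ?_⟩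
    have e : (1 : ℤ) + 1 = 2 := by norm_num
    rw [e, inCol_two] at ha
    by_cases h4 : 3 < a
    · exact V_zero hb h4 _
    · obtain ⟨h5, b, rfl⟩ := ha
      have : b = 1 := by omega
      subst this
      exact h3

lemma mem_Bm (hb : D.IsBounded 3) (x : D.Ch 3) : x ∈ D.B (-1) 3 ↔
    (∀ a, ¬ Odd a → x a = 0) ∧ ∃ k : D.V 2 2, x 1 = gam k ∧ x 3 = rho k := by
  rw [mem_B]
  have e : (-1 : ℤ) - 1 = -2 := by norm_num
  constructor
  · rintro ⟨y, hy, h1, h2⟩
    refine ⟨fun a ha => h2 a (by rwa [inCol_neg_one]), y 2, ?_, ?_⟩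
    · rw [h1 1 (by rw [inCol_neg_one]; decide)]
      change rho (y 0) + gam (y 2) = gam (y 2)
      rw [hy 0 (by rw [e, inCol_neg_two]; omega)]
      change D.res _ _ 0 + _ = _
      rw [map_zero]
      exact zero_add (gam (y 2))
    · rw [h1 3 (by rw [inCol_neg_one]; decide)]
      change rho (y 2) + gam (y 4) = rho (y 2)
      rw [V_zero hb (by norm_num) (y 4)]
      change _ + D.gys _ _ 0 = _
      rw [map_zero, add_zero]
  · rintro ⟨h0, k, h1, h2⟩
    refine ⟨mk2 2 k, fun a ha => ?_, fun a ha => ?_, fun a ha => h0 a (by rwa [inCol_neg_one] at ha)⟩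
    · rw [e, inCol_neg_two] at ha
      match a with
      | 0 => rfl
      | 1 => rfl
      | 2 => exact absurd ⟨le_rfl, by decide⟩ ha
      | _ + 3 => rfl
    · rw [inCol_neg_one] at ha
      by_cases h4 : 3 < a
      · rw [V_zero hb h4 (x a), V_zero hb h4 (tot _ a)]
      · obtain ⟨b, rfl⟩ := ha
        have : b = 0 ∨ b = 1 := by omega
        rcases this with rfl | rfl
        · change x 1 = rho (0 : D.V 0 2) + gam k
          rw [h1]
          change _ = D.res _ _ 0 + _
          rw [map_zero]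
          exact (zero_add (gam k)).symm
        · change x 3 = rho k + gam (0 : D.V 4 2)
          rw [h2]
          change _ = _ + D.gys _ _ 0
          rw [map_zero, add_zero]

lemma mem_Bp (hb : D.IsBounded 3) (x : D.Ch 3) : x ∈ D.B 1 3 ↔
    (∀ a, ¬ Odd a → x a = 0) ∧ ∃ (m : D.V 0 2) (k : D.V 2 2), x 1 = rho m + gam k ∧
      x 3 = rho k := by
  rw [mem_B]
  have e : (1 : ℤ) - 1 = 0 := by norm_num
  constructor
  · rintro ⟨y, hy, h1, h2⟩
    refine ⟨fun a ha => h2 a (by rwa [inCol_one]), y 0, y 2, ?_, ?_⟩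
    · exact h1 1 (by rw [inCol_one]; decide)
    · rw [h1 3 (by rw [inCol_one]; decide)]
      change rho (y 2) + gam (y 4) = rho (y 2)
      rw [V_zero hb (by norm_num) (y 4)]
      change _ + D.gys _ _ 0 = _
      rw [map_zero, add_zero]
  · rintro ⟨h0, m, k, h1, h2⟩
    refine ⟨mk02 2 m k, fun a ha => ?_, fun a ha => ?_, fun a ha => h0 a (by rwa [inCol_one] at ha)⟩
    · rw [e, inCol_zero] at ha
      match a with
      | 0 => exact absurd (by decide) ha
      | 1 => rfl
      | 2 => exact absurd (by decide) ha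
      | _ + 3 => rfl
    · rw [inCol_one] at ha
      by_cases h4 : 3 < a
      · rw [V_zero hb h4 (x a), V_zero hb h4 (tot _ a)]
      · obtain ⟨b, rfl⟩ := ha
        have : b = 0 ∨ b = 1 := by omega
        rcases this with rfl | rfl
        · exact h1
        · change x 3 = rho k + gam (0 : D.V 4 2)
          rw [h2]
          change _ = _ + D.gys _ _ 0
          rw [map_zero, add_zero]

/-- **Reduction to injectivity** -/
theorem mw_of_inj (hC : D.IsComplex) (hb : D.IsBounded 3) (hd : D.IsDuality 3)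
    (h : ∀ m : D.V 0 2, gam (rho m) = 0 → ∃ k : D.V 2 2, rho k = 0 ∧ rho m = gam k) :
    D.MonodromyWeight 3 1 := by
  have hinj : ∀ x ∈ D.Z (-1) 3, x ∈ D.B 1 3 → x ∈ D.B (-1) 3 := by
    intro x hx hx'
    rw [mem_Zm hb] at hx
    rw [mem_Bp hb] at hx'
    obtain ⟨h0, m, y, h1, h3⟩ := hx'
    have e1 : gam (rho m) = 0 := by
      have e2 : gam (x 1) = gam (rho m) + gam (gam y) := by
        rw [h1]
        exact map_add (D.gys 0 3) _ _
      have e3 : gam (gam y) = 0 := hC.gys_gys 0 2 y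
      rw [hx.2.1, e3, add_zero] at e2
      exact e2.symm
    obtain ⟨k, hk1, hk2⟩ := h m e1
    rw [mem_Bm hb]
    refine ⟨h0, y + k, ?_, ?_⟩
    · rw [h1, hk2]
      have : gam (y + k) = gam y + gam k := map_add (D.gys 1 2) _ _
      rw [this, add_comm]
    · rw [h3]
      have : rho (y + k) = rho y + rho k := map_add (D.res 2 2) _ _
      rw [this, hk1, add_zero]
  refine ⟨?_, ?_, ?_, ?_⟩
  · exact fun x hx => Z_le 1 3 hx
  · exact fun x hx => B_le 1 3 le_rfl hx
  · intro x hx hx'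
    have e : -((1 : ℕ) : ℤ) = -1 := by norm_num
    rw [e] at hx ⊢
    exact hinj x hx hx'
  · -- surjectivity
    have e : -((1 : ℕ) : ℤ) = -1 := by norm_num
    rw [e]
    let K := D.V 1 3 × D.V 3 3
    let p1 : LinearMap.BilinForm E (D.V 1 3) := D.pair 1 3 3
    let p3 : LinearMap.BilinForm E (D.V 3 3) := D.pair 3 3 3
    let Ψ : LinearMap.BilinForm E K :=
      p1.compl₁₂ (LinearMap.fst E _ _) (LinearMap.fst E _ _) +
        p3.compl₁₂ (LinearMap.snd E _ _) (LinearMap.snd E _ _)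
    have hΨ : ∀ x y : K, Ψ x y = p1 x.1 y.1 + p3 x.2 y.2 := fun x y => rfl
    have symm1 : ∀ x y, p1 x y = p1 y x := by
      intro x y
      have h1 : D.pair 1 3 3 x y = (-1) ^ (3 + 1) * D.pair 1 3 3 y x := hd.symm 1 3 3 x y
      change D.pair 1 3 3 x y = D.pair 1 3 3 y x
      rw [h1]
      norm_num
    have symm3 : ∀ x y, p3 x y = p3 y x := by
      intro x y
      have h1 : D.pair 3 3 3 x y = (-1) ^ (3 + 3) * D.pair 3 3 3 y x := hd.symm 3 3 3 x y
      change D.pair 3 3 3 x y = D.pair 3 3 3 y x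
      rw [h1]
      norm_num
    let r13 : D.V 1 3 →ₗ[E] D.V 2 4 := D.res 1 3
    let g33 : D.V 3 3 →ₗ[E] D.V 2 4 := D.gys 2 3
    let g13 : D.V 1 3 →ₗ[E] D.V 0 4 := D.gys 0 3
    let r02 : D.V 0 2 →ₗ[E] D.V 1 3 := D.res 0 2
    let g22 : D.V 2 2 →ₗ[E] D.V 1 3 := D.gys 1 2
    let r22 : D.V 2 2 →ₗ[E] D.V 3 3 := D.res 2 2
    let dz : K →ₗ[E] D.V 2 4 := r13.comp (LinearMap.fst E _ _) + g33.comp (LinearMap.snd E _ _)
    let Z' : Submodule E K := LinearMap.ker dz
    let Z : Submodule E K := LinearMap.ker dz ⊓ LinearMap.ker (g13.comp (LinearMap.fst E _ _))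
    let db : D.V 2 2 →ₗ[E] K := g22.prod r22
    let B : Submodule E K := LinearMap.range db
    let dm : D.V 0 2 →ₗ[E] K := r02.prod 0
    let B' : Submodule E K := LinearMap.range db ⊔ LinearMap.range dm
    have a1 : ∀ (x : K) (k : D.V 2 2), Ψ (db k) x = D.pair 2 4 2 (dz x) k := by
      intro x k
      have f1 : p1 (g22 k) x.1 = D.pair 2 4 2 (r13 x.1) k := by
        rw [symm1]
        exact (hd.adj 1 3 2 x.1 k).symm
      have f2 : p3 (r22 k) x.2 = D.pair 2 4 2 (g33 x.2) k := by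
        have f3 : p3 (r22 k) x.2 = D.pair 2 2 4 k (g33 x.2) := hd.adj 2 2 3 k x.2
        rw [f3]
        have f4 : D.pair 2 2 4 k (g33 x.2) = (-1) ^ (2 + 2) * D.pair 2 4 2 (g33 x.2) k :=
          hd.symm 2 2 4 k (g33 x.2)
        rw [f4]
        norm_num
      have f5 : Ψ (db k) x = p1 (g22 k) x.1 + p3 (r22 k) x.2 := rfl
      have f6 : dz x = r13 x.1 + g33 x.2 := rfl
      rw [f5, f1, f2, f6, map_add, LinearMap.add_apply]
    have a2 : ∀ (x : K) (m : D.V 0 2), Ψ (dm m) x = D.pair 0 2 4 m (g13 x.1) := by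
      intro x m
      have f5 : Ψ (dm m) x = p1 (r02 m) x.1 + p3 0 x.2 := rfl
      rw [f5, map_zero, LinearMap.zero_apply, add_zero]
      exact hd.adj 0 2 3 m x.1
    have hZ' : Z' ≤ Z ⊔ B' := by
      refine surj_of_inj Ψ (fun x y => by rw [hΨ, hΨ, symm1, symm3]) ?_ Z B Z' B' ?_ ?_ ?_
      · rintro ⟨x1, x3⟩ hx
        have f1 : x1 = 0 := by
          apply hd.nondeg 1 3 3 rfl x1
          intro y
          have := hx (y, 0)
          rw [hΨ] at this
          change p1 x1 y + p3 x3 0 = 0 at this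
          rwa [map_zero, add_zero] at this
        have f2 : x3 = 0 := by
          apply hd.nondeg 3 3 3 rfl x3
          intro y
          have := hx (0, y)
          rw [hΨ] at this
          change p1 x1 0 + p3 x3 y = 0 at this
          rwa [map_zero, zero_add] at this
        rw [f1, f2]
        rfl
      · intro x
        constructor
        · rintro ⟨f1, f2⟩ y hy
          obtain ⟨_, ⟨k, rfl⟩, _, ⟨m, rfl⟩, rfl⟩ := Submodule.mem_sup.1 hy
          rw [map_add, LinearMap.add_apply, a1, a2]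
          have f1' : dz x = 0 := f1
          have f2' : g13 x.1 = 0 := f2
          rw [f1', f2', map_zero, map_zero, LinearMap.zero_apply, add_zero]
        · intro hx
          constructor
          · change dz x = 0
            apply hd.nondeg 2 4 2 rfl (dz x)
            intro k
            change D.pair 2 4 2 (dz x) k = 0
            rw [← a1]
            exact hx _ (Submodule.mem_sup_left ⟨k, rfl⟩)
          · change g13 x.1 = 0
            apply hd.nondeg 0 4 2 rfl (g13 x.1)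
            intro m
            have f3 : D.pair 0 2 4 m (g13 x.1) = (-1) ^ (2 + 0) * D.pair 0 4 2 (g13 x.1) m :=
              hd.symm 0 2 4 m (g13 x.1)
            have f4 : D.pair 0 2 4 m (g13 x.1) = 0 := by
              rw [← a2]
              exact hx _ (Submodule.mem_sup_right ⟨m, rfl⟩)
            rw [f3] at f4
            change D.pair 0 4 2 (g13 x.1) m = 0
            simpa using f4
      · rintro _ ⟨k, rfl⟩ y hy
        have hr : Ψ y (db k) = Ψ (db k) y := by rw [hΨ, hΨ, symm1, symm3]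
        have hy' : dz y = 0 := hy
        rw [hr, a1, hy', map_zero, LinearMap.zero_apply]
      · rintro x ⟨f1, f2⟩ hx
        obtain ⟨_, ⟨k, rfl⟩, _, ⟨m, rfl⟩, rfl⟩ := Submodule.mem_sup.1 hx
        have g1 : g13 (g22 k + r02 m) = 0 := f2
        have g2 : gam (rho m) = 0 := by
          rw [map_add] at g1
          have g3 : g13 (g22 k) = 0 := hC.gys_gys 0 2 k
          rw [g3, zero_add] at g1
          exact g1
        obtain ⟨k', hk1, hk2⟩ := h m g2
        refine ⟨k + k', ?_⟩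
        rw [map_add]
        congr 1
        exact Prod.ext hk2.symm hk1
    intro y hy
    rw [SetLike.mem_coe, Nat.cast_one, mem_Zp hb] at hy
    have hyK : ((y 1, y 3) : K) ∈ Z' := hy.2
    obtain ⟨⟨z1, z3⟩, ⟨hz1, hz2⟩, _, hb', hsum⟩ := Submodule.mem_sup.1 (hZ' hyK)
    obtain ⟨_, ⟨k, rfl⟩, _, ⟨m, rfl⟩, rfl⟩ := Submodule.mem_sup.1 hb'
    have s1 : z1 + (g22 k + r02 m) = y 1 := congrArg Prod.fst hsum
    have s3 : z3 + (r22 k + 0) = y 3 := congrArg Prod.snd hsum
    refine ⟨mk13 3 z1 z3, ?_, ?_⟩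
    · rw [SetLike.mem_coe, mem_Zm hb]
      exact ⟨mk13_ne z1 z3, hz2, hz1⟩
    · rw [Nat.cast_one]
      change y - mk13 3 z1 z3 ∈ D.B 1 3
      rw [mem_Bp hb]
      refine ⟨fun a ha => ?_, m, k, ?_, ?_⟩
      · rw [Pi.sub_apply, hy.1 a ha, mk13_ne z1 z3 a ha, sub_zero]
      · change y 1 - z1 = rho m + gam k
        rw [← s1]
        change z1 + (gam k + rho m) - z1 = rho m + gam k
        abel
      · change y 3 - z3 = rho k
        rw [← s3, add_zero]
        change z3 + rho k - z3 = rho k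
        abel

/-- **The monodromy-weight conjecture for threefolds with simple common eigenvalues.** -/
theorem threefold [CharZero E] {q : ℕ} (hq : q ≠ 0) (hD : D.IsSemistable 3 q) (A : D.Cycles)
    (hA : A.IsGeometric 3) (hT : A.TateDivisors q 0) (P₁ P₂ : ℤ[X])
    (h₁ : (D.frob 0 2).charpoly = P₁.map (Int.castRingHom E))
    (h₂ : (D.frob 1 3).charpoly = P₂.map (Int.castRingHom E)) (hs : SimpleCommonRoots P₁ P₂ q) :
    D.MonodromyWeight 3 1 := by
  refine mw_of_inj hD.complex hD.bounded hD.duality fun m hm => ?_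
  have hP₁ : P₁ ≠ 0 := by
    rintro rfl
    rw [Polynomial.map_zero] at h₁
    exact (LinearMap.charpoly_monic (D.frob 0 2)).ne_zero h₁
  obtain ⟨m0, h0, h1⟩ := key_non_tate hq hD.lefschetz hD.frobenius hD.split hD.generic
    (fun f hf hfq hf1 => by
      rw [h₂]
      rw [h₁] at hf1
      exact simple_of_common hs hP₁ f hf hfq hf1) m hm
  obtain ⟨k, hk1, hk2⟩ := key_tate hD.complex hD.lefschetz hD.duality A hA.stable hA.components
    hA.rational hA.hodge m0 (hT h0) (by rw [← h1]; exact hm)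
  exact ⟨k, hk1, h1.trans hk2⟩

end Pool.Agent.W522.M
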